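import Pool.Agent.Y582.LG.Dense
import Pool.Agent.H995R3.Main

set_option autoImplicit false

/-!
# The Levy collapse `Col(τ, <κ)` of a measurable cardinal forces `κ →_{hc,<3} (κ)²_N`, `|N| < τ`
-/

namespace Pool.Agent.Y582.LG

open Cardinal Pool.Agent.Helper669.Forcing Pool.Agent.Helper669.K Pool.Agent.W931.KH
open Pool.Agent.H995R3 (Nrm const_reg const_small IsSmall InDiff cover_bdd small_bdd IsMeasurable
  regular_of_measurable exists_normal)

section

variable {P : Type} [Preorder P]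

/-- `c` names a colouring of the unordered pairs of distinct elements of `X` with elements of `N`:
`c x y n` names the truth value of `c {x, y} = n`. -/
def IsPairCol {X N : Type} (c : X → X → N → Set P) : Set P :=
  fall fun x => fall fun y => fall fun _ : x ≠ y =>
    fand (fex fun n => meets (c x y n))
      (fand
        (fall fun n => fall fun m =>
          fimp (fand (meets (c x y n)) (meets (c x y m))) (fground (n = m)))
        (fall fun n => fimp (meets (c x y n)) (meets (c y x n))))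

/-- The relation `κ →_{hc,<n} (κ)²_N`, where `κ = |X|`, in the generic extension: for every
colouring `c` of the pairs of elements of `X` with elements of `N` there are a set `A ⊆ X` of
cardinality `|X|` and a colour `i` such that for every `C ⊆ A` of smaller cardinality all
`x, y ∈ A ∖ C` are joined by a path of length `l < n` with all vertices in `A ∖ C` all of whose
edges have colour `i`. -/
def HcCol (P : Type) [Preorder P] (X N : Type) (n : ℕ) : Set P :=
  fall fun c : X → X → N → Set P => fimp (IsPairCol c)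
    (fex fun A : X → Set P => fex fun i : N => fand (HasFullSize A)
      (fall fun C : X → Set P => fimp (fand (Sub C A) (IsSmall C))
        (fall fun x => fall fun y => fimp (fand (InDiff A C x) (InDiff A C y))
          (fex fun l : ℕ => fex fun _ : l < n => fex fun γ : ℕ → X =>
            fand (fground (γ 0 = x ∧ γ l = y))
              (fand (fall fun k => fall fun _ : k ≤ l => InDiff A C (γ k))
                (fall fun j => fall fun _ : j < l =>
                  fand (fground (γ j ≠ γ (j + 1))) (meets (c (γ j) (γ (j + 1)) i))))))))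

end

theorem hc_col {κ τ : Cardinal.{0}} (h : IsMeasurable κ) (hτ : τ.IsRegular) (hτ0 : ℵ₀ < τ)
    (hτκ : τ < κ) {N : Type} (hNτ : #N < τ) (p : GC τ τ.ord.ToType κ.ord.ToType) :
    p ∈ HcCol (GC τ τ.ord.ToType κ.ord.ToType) κ.ord.ToType N 3 := by
  classical
  obtain ⟨hκ, h2⟩ := regular_of_measurable h
  obtain ⟨U, hN⟩ := exists_normal h
  have h0 : ℵ₀ < κ := h.1
  have hW : #τ.ord.ToType < κ := by
    rw [Cardinal.mk_ord_toType]
    exact hτκ
  have hreg : ∀ p : GC τ τ.ord.ToType κ.ord.ToType, p ∈ StaysRegular _ κ :=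
    staysRegular_of_cc' hκ (fun ι f hι => GC.cc hτ0.le hN hτκ ι f hι)
  intro c
  rw [mem_fimp]
  intro q _ hq
  obtain ⟨i, L, qf, s, hs0, hsn, hTL, hTq, hLq, hD⟩ := exists_seq hτ hN hτκ hW hNτ
    (fun n α β => meets (c α β n)) q (by
      intro t ht α β hαβ
      obtain ⟨r, hr, n, hn⟩ := mem_fex.1 (hq α β hαβ.ne).1 t ht
      exact ⟨r, hr, n, hn⟩)
  have hsm : ∀ j j' : ℕ, j ≤ j' → s j' ≤ s j := fun j j' hj => antitone_nat_of_succ_le hsn hj
  have hNat : #ℕ < τ := by rw [Cardinal.mk_nat]; exact hτ0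
  let p1 : GC τ τ.ord.ToType κ.ord.ToType := GC.un hτ hNat s hsm
  have hp1 : ∀ n, p1 ≤ s n := fun n => GC.un_le hτ hNat s hsm n
  have hp1q : p1 ≤ q := (hp1 0).trans hs0
  -- the good pairs
  let Q : ℕ → ℕ → κ.ord.ToType → κ.ord.ToType → Prop := fun k l α β =>
    ∀ t, t ≤ L k α → t ≤ L l β → t ≤ p1 → ∀ᶠ γ in (U : Filter κ.ord.ToType),
      ∃ v, v ≤ t ∧ v ≤ L (max k l + 1) γ ∧ v ∈ meets (c α γ i) ∧ v ∈ meets (c β γ i)
  have hQ : ∀ k l, ∀ᶠ α in (U : Filter κ.ord.ToType), ∀ᶠ β in (U : Filter κ.ord.ToType),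
      Q k l α β := fun k l => common hτ0.le hN hτκ hW (fun α β => meets (c α β i))
    (fun α β => down_meets _) L qf s p1 hp1 hTL hTq hLq hD k l (max k l + 1)
    (by omega) (by omega)
  let Y0 : κ.ord.ToType → Prop := fun α => ∀ kl : ℕ × ℕ, ∀ᶠ β in (U : Filter κ.ord.ToType),
    Q kl.1 kl.2 α β
  have hcnt : #(ℕ × ℕ) < κ := by
    rw [Cardinal.mk_denumerable]
    exact h0
  have hY0 : ∀ᶠ α in (U : Filter κ.ord.ToType), Y0 α :=
    hN.comp hcnt (fun (kl : ℕ × ℕ) α => ∀ᶠ β in (U : Filter κ.ord.ToType), Q kl.1 kl.2 α β)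
      fun kl => hQ kl.1 kl.2
  have hY1 : ∀ᶠ β in (U : Filter κ.ord.ToType), ∀ α < β, Y0 α → ∀ kl : ℕ × ℕ,
      Q kl.1 kl.2 α β := by
    refine hN.norm (fun α β => Y0 α → ∀ kl : ℕ × ℕ, Q kl.1 kl.2 α β) fun α => ?_
    by_cases hα : Y0 α
    · have h3 := hN.comp hcnt (fun (kl : ℕ × ℕ) β => Q kl.1 kl.2 α β) hα
      exact h3.mono fun β hβ _ => hβ
    · exact Filter.Eventually.of_forall fun β h => absurd h hα
  let Y : κ.ord.ToType → Prop := fun β => Y0 β ∧ ∀ α < β, Y0 α → ∀ kl : ℕ × ℕ,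
    Q kl.1 kl.2 α β
  have hY : ∀ᶠ α in (U : Filter κ.ord.ToType), Y α := hY0.and hY1
  let A : κ.ord.ToType → Set (GC τ τ.ord.ToType κ.ord.ToType) :=
    fun α => {r | Y α ∧ ∃ k, r ≤ L k α}
  refine ⟨p1, hp1q, ?_⟩
  refine mem_fex_of_mem A (down_fex _) ?_
  refine mem_fex_of_mem i (down_fand (down_fall fun _ => down_fall fun _ => down_fnot _)
    (down_fall fun _ => down_fimp _ _)) ?_
  -- the key fact
  have core : ∀ (b x y : κ.ord.ToType) (t : GC τ τ.ord.ToType κ.ord.ToType),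
      t ≤ p1 → x < y → t ∈ meets (A x) → t ∈ meets (A y) → ∃ γ, b < γ ∧ y < γ ∧
        ∃ v ≤ t, v ∈ meets (A γ) ∧ v ∈ meets (c x γ i) ∧ v ∈ meets (c y γ i) := by
    intro b x y t htp hxy hx hy
    obtain ⟨t1, ht1, s1, ⟨hYx, k, hk⟩, hs1⟩ := hx t le_rfl
    obtain ⟨t2, ht2, s2, ⟨hYy, l, hl⟩, hs2⟩ := hy t1 ht1
    have h3 := hYy.2 x hxy hYx.1 (k, l) t2 (ht2.trans (hs1.trans hk)) (hs2.trans hl)
      (ht2.trans (ht1.trans htp))
    obtain ⟨γ, ⟨v, hv1, hv2, hv3, hv4⟩, hγ1, hγ2, hγ3⟩ :=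
      (h3.and ((hN.big b).and ((hN.big y).and hY))).exists
    exact ⟨γ, hγ1, hγ2, v, hv1.trans (ht2.trans ht1), meets_of_mem ⟨hγ3, _, hv2⟩, hv3, hv4⟩
  refine ⟨?_, ?_⟩
  · intro ν hν q2 hq2 hcon
    rw [Cardinal.mk_ord_toType] at hν
    obtain ⟨r, hr, R, hR⟩ := mem_fex.1 hcon q2 le_rfl
    obtain ⟨r', hr', b, hb⟩ := cover_bdd hreg hν A R r hR
    have h3 : r' ≤ s 0 := hr'.trans (hr.trans (hq2.trans (hp1 0)))
    obtain ⟨α, hα1, hα2, hα3⟩ :=
      (((hTL 0).add_le hτ0.le hN hτκ h3).and ((hN.big b).and hY)).exists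
    exact absurd (hb α _ hα1.1 (meets_of_mem ⟨hα3, 0, hα1.2⟩)) (not_lt.2 hα2.le)
  · intro C
    rw [mem_fimp]
    intro q2 hq2 hC
    obtain ⟨r, hr, b, hb⟩ := small_bdd hreg C q2 hC.2
    refine ⟨r, hr, ?_⟩
    intro x y
    rw [mem_fimp]
    intro q3 hq3 hxy
    have hq3p : q3 ≤ p1 := hq3.trans (hr.trans hq2)
    -- finishing off with a common neighbour
    have fin : ∀ (γ : κ.ord.ToType) (v : GC τ τ.ord.ToType κ.ord.ToType),
        b < γ → x ≠ γ → y ≠ γ → v ≤ q3 → v ∈ meets (A γ) → v ∈ meets (c x γ i) →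
        v ∈ meets (c y γ i) → ∃ r ≤ q3, r ∈ (fex fun l : ℕ => fex fun _ : l < 3 =>
          fex fun γ : ℕ → κ.ord.ToType =>
            fand (fground (γ 0 = x ∧ γ l = y))
              (fand (fall fun k => fall fun _ : k ≤ l => InDiff A C (γ k))
                (fall fun j => fall fun _ : j < l =>
                  fand (fground (γ j ≠ γ (j + 1))) (meets (c (γ j) (γ (j + 1)) i))))) := by
      intro γ v hbγ hxγ hyγ hv hvA hvx hvy
      have hvq : v ≤ q := hv.trans (hq3p.trans hp1q)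
      obtain ⟨w, hw, hwy⟩ := mem_fimp.1 ((hq y γ hyγ).2.2 i) v hvq hvy
      refine ⟨w, hw.trans hv, ?_⟩
      refine mem_fex_of_mem 2 (down_fex _) ?_
      refine mem_fex_of_mem (by norm_num : 2 < 3) (down_fex _) ?_
      refine mem_fex_of_mem (fun k => if k = 0 then x else if k = 1 then γ else y) ?_ ?_
      · exact down_fand (down_fground _) (down_fand
          (down_fall fun _ => down_fall fun _ => down_fand (down_meets _) (down_fnot _))
          (down_fall fun _ => down_fall fun _ => down_fand (down_fground _) (down_meets _)))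
      · have hdiff : ∀ z, q3 ∈ InDiff A C z → w ∈ InDiff A C z := fun z hz =>
          down_fand (down_meets _) (down_fnot _) _ hz _ (hw.trans hv)
        refine ⟨⟨by simp, by simp⟩, ?_, ?_⟩
        · intro k hk
          rcases (by omega : k = 0 ∨ k = 1 ∨ k = 2) with rfl | rfl | rfl
          · exact hdiff x hxy.1
          · refine ⟨down_meets _ _ hvA _ hw, ?_⟩
            intro t ht htC
            exact absurd (hb γ t (ht.trans (hw.trans (hv.trans hq3))) htC) (not_lt.2 hbγ.le)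
          · exact hdiff y hxy.2
        · intro j hj
          rcases (by omega : j = 0 ∨ j = 1) with rfl | rfl
          · exact ⟨hxγ, down_meets _ _ hvx _ hw⟩
          · exact ⟨fun e => hyγ e.symm, hwy⟩
    rcases lt_trichotomy x y with hlt | heq | hlt
    · obtain ⟨γ, hγ1, hγ2, v, hv1, hv2, hv3, hv4⟩ := core b x y q3 hq3p hlt hxy.1.1 hxy.2.1
      exact fin γ v hγ1 (hlt.trans hγ2).ne hγ2.ne hv1 hv2 hv3 hv4
    · subst heq
      refine ⟨q3, le_rfl, ?_⟩
      refine mem_fex_of_mem 0 (down_fex _) ?_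
      refine mem_fex_of_mem (by norm_num : 0 < 3) (down_fex _) ?_
      refine mem_fex_of_mem (fun _ => x) ?_ ?_
      · exact down_fand (down_fground _) (down_fand
          (down_fall fun _ => down_fall fun _ => down_fand (down_meets _) (down_fnot _))
          (down_fall fun _ => down_fall fun _ => down_fand (down_fground _) (down_meets _)))
      · refine ⟨⟨rfl, rfl⟩, fun k _ => hxy.1, fun j hj => absurd hj (Nat.not_lt_zero j)⟩
    · obtain ⟨γ, hγ1, hγ2, v, hv1, hv2, hv3, hv4⟩ := core b y x q3 hq3p hlt hxy.2.1 hxy.1.1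
      exact fin γ v hγ1 hγ2.ne (hlt.trans hγ2).ne hv1 hv2 hv4 hv3

end Pool.Agent.Y582.LG
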