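import Pool.Agent.Y582.LG.WConn
import Pool.Agent.Y582.LG.Main
import Pool.Agent.H833R3.Bridge

set_option autoImplicit false

/-!
# The Levy collapse `Col(τ, <κ)` of a weakly compact cardinal forces `κ →_{hc,<5} (κ)²_N`
-/

namespace Pool.Agent.Y582.LG.Wc

open Cardinal Set Filter Pool.Agent.Y582.LG Pool.Agent.W931.KH
open Pool.Agent.Helper669.Forcing Pool.Agent.Helper669.K
open Pool.Agent.H833R3.Levy (Inac PairPart Compl exists_filter inac_toType)
open Pool.Agent.H995R3 (IsSmall InDiff cover_bdd small_bdd)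

theorem hc_five {κ τ : Cardinal.{0}} (hκ : κ.IsRegular) (hK : Inac κ.ord.ToType)
    (hP : PairPart κ.ord.ToType) (hτ : τ.IsRegular) (hτ0 : ℵ₀ < τ)
    (hτκ : τ < κ) {N : Type} (hNτ : #N < τ) (p : GC τ τ.ord.ToType κ.ord.ToType) :
    p ∈ HcCol (GC τ τ.ord.ToType κ.ord.ToType) κ.ord.ToType N 5 := by
  classical
  have hKκ : #κ.ord.ToType = κ := Cardinal.mk_ord_toType κ
  have hW : #τ.ord.ToType < #κ.ord.ToType := by
    rw [Cardinal.mk_ord_toType, hKκ]
    exact hτκ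
  have hτK : τ < #κ.ord.ToType := by rw [hKκ]; exact hτκ
  have hreg : ∀ p : GC τ τ.ord.ToType κ.ord.ToType, p ∈ StaysRegular _ κ :=
    staysRegular_of_cc' hκ (fun ι f hι => cc hK hP hW hτ hτK ι f (by rw [hKκ]; exact hι))
  obtain ⟨M, hM, hNM, hM0⟩ : ∃ M : Type, #M < τ ∧ #N ≤ #M ∧ ℵ₀ ≤ #M :=
    ⟨(max #N ℵ₀).out, by rw [Cardinal.mk_out]; exact max_lt hNτ hτ0,
      by rw [Cardinal.mk_out]; exact le_max_left _ _, by
        rw [Cardinal.mk_out]; exact le_max_right _ _⟩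
  obtain ⟨m0⟩ : Nonempty M := by
    rw [← Cardinal.mk_ne_zero_iff]
    exact (aleph0_pos.trans_le hM0).ne'
  intro c
  rw [mem_fimp]
  intro q _ hq
  let C : GC τ τ.ord.ToType κ.ord.ToType → κ.ord.ToType → κ.ord.ToType → N → Prop :=
    fun t α β n => t ∈ meets (c α β n)
  have hC : ∀ p α β n, C p α β n → ∀ q ≤ p, C q α β n := fun p α β n h q hq =>
    down_meets _ _ h q hq
  obtain ⟨F, T, hF, hT⟩ := exists_closed (C := C) (p₀ := q) hK hP hW hτK hτ hM m0 hM0 hNM (by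
    intro t ht α β hαβ
    obtain ⟨r, hr, n, hn⟩ := mem_fex.1 (hq α β hαβ.ne).1 t ht
    exact ⟨r, hr, n, hn⟩)
  obtain ⟨i, p1, hp1q, f, hf, hb, hpsi⟩ := exists_path' hK hW hτK hF hT hNM hM0
  let A : κ.ord.ToType → Set (GC τ τ.ord.ToType κ.ord.ToType) :=
    fun α => {t | InX F C T f i α t}
  have hAd : ∀ α, Down (A α) := fun α t ht t' ht' => InX.mono ht ht'
  refine ⟨p1, hp1q, ?_⟩
  refine mem_fex_of_mem A (down_fex _) ?_
  refine mem_fex_of_mem i (down_fand (down_fall fun _ => down_fall fun _ => down_fnot _)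
    (down_fall fun _ => down_fimp _ _)) ?_
  refine ⟨?_, ?_⟩
  · intro ν hν q2 hq2 hcon
    rw [Cardinal.mk_ord_toType] at hν
    obtain ⟨r, hr, R, hR⟩ := mem_fex.1 hcon q2 le_rfl
    obtain ⟨r', hr', b, hbb⟩ := cover_bdd hreg hν A R r hR
    obtain ⟨t', ht', β, hβ, hX⟩ := large hF hf hb hpsi (hr'.trans (hr.trans hq2)) b
    exact absurd (hbb β t' ht' (meets_of_mem (show t' ∈ A β from hX))) (not_lt.2 hβ.le)
  · intro B
    rw [mem_fimp]
    intro q2 hq2 hB
    obtain ⟨r, hr, b, hbb⟩ := small_bdd hreg B q2 hB.2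
    refine ⟨r, hr, ?_⟩
    intro x y
    rw [mem_fimp]
    intro q3 hq3 hxy
    have hq3p : q3 ≤ p1 := hq3.trans (hr.trans hq2)
    obtain ⟨t1, ht1, h1⟩ := exists_of_meets (hAd x) hxy.1.1
    obtain ⟨t2, ht2, h2⟩ := exists_of_meets (hAd y) (down_meets _ _ hxy.2.1 t1 ht1)
    obtain ⟨t3, ht3, β, β', δ, ⟨hβ, hβ', hδ⟩, ⟨x2, x2', x3⟩, ⟨g1, e1⟩, ⟨g2, e2⟩, ⟨g3, e3⟩,
      ⟨g4, e4⟩⟩ := conn4 hC hF hf hb hpsi (ht2.trans (ht1.trans hq3p))
        (show InX F C T f i x t2 from InX.mono h1 ht2) h2 b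
    have ht3q : t3 ≤ q := ht3.trans (ht2.trans (ht1.trans (hq3p.trans hp1q)))
    obtain ⟨t4, ht4, e3'⟩ := mem_fimp.1 ((hq β' δ g3.ne).2.2 i) t3 ht3q e3
    obtain ⟨t5, ht5, e4'⟩ := mem_fimp.1 ((hq y β' g4.ne).2.2 i) t4 (ht4.trans ht3q)
      (down_meets _ _ e4 t4 ht4)
    have ht53 : t5 ≤ t3 := ht5.trans ht4
    have ht5q3 : t5 ≤ q3 := ht53.trans (ht3.trans (ht2.trans ht1))
    refine ⟨t5, ht5q3, ?_⟩
    refine mem_fex_of_mem 4 (down_fex _) ?_
    refine mem_fex_of_mem (by norm_num : 4 < 5) (down_fex _) ?_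
    refine mem_fex_of_mem (fun k => if k = 0 then x else if k = 1 then β else
      if k = 2 then δ else if k = 3 then β' else y) ?_ ?_
    · exact down_fand (down_fground _) (down_fand
        (down_fall fun _ => down_fall fun _ => down_fand (down_meets _) (down_fnot _))
        (down_fall fun _ => down_fall fun _ => down_fand (down_fground _) (down_meets _)))
    · have hdiff : ∀ z, q3 ∈ InDiff A B z → t5 ∈ InDiff A B z := fun z hz =>
        down_fand (down_meets _) (down_fnot _) _ hz _ ht5q3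
      have hnew : ∀ z, b < z → InX F C T f i z t3 → t5 ∈ InDiff A B z := by
        intro z hz hX
        refine ⟨meets_of_mem (show t5 ∈ A z from InX.mono hX ht53), ?_⟩
        intro t ht htB
        exact absurd (hbb z t (ht.trans (ht5q3.trans hq3)) htB) (not_lt.2 hz.le)
      refine ⟨⟨by simp, by simp⟩, ?_, ?_⟩
      · intro k hk
        rcases (by omega : k = 0 ∨ k = 1 ∨ k = 2 ∨ k = 3 ∨ k = 4) with rfl | rfl | rfl | rfl | rfl
        · exact hdiff x hxy.1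
        · exact hnew β hβ x2
        · exact hnew δ hδ x3
        · exact hnew β' hβ' x2'
        · exact hdiff y hxy.2
      · intro j hj
        rcases (by omega : j = 0 ∨ j = 1 ∨ j = 2 ∨ j = 3) with rfl | rfl | rfl | rfl
        · exact ⟨g1.ne, down_meets _ _ e1 t5 ht53⟩
        · exact ⟨g2.ne, down_meets _ _ e2 t5 ht53⟩
        · exact ⟨g3.ne', down_meets _ _ e3' t5 ht5⟩
        · exact ⟨g4.ne', e4'⟩

end Pool.Agent.Y582.LG.Wc
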