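import Mathlib
import Pool.Agent.Helper669.KHuge
import Pool.Agent.Helper669.VGch
import Pool.Agent.W931.KH.CC

set_option autoImplicit false

/-!
# The Levy collapse `Col(τ, <κ)` for a regular cardinal `τ`
-/

namespace Pool.Agent.Y582.LG

open Cardinal Pool.Agent.Helper669.Forcing Pool.Agent.Helper669.K Pool.Agent.W931.KH
  Pool.Agent.Helper669.U Pool.Agent.Helper669.V

/-- A condition of the Levy collapse `Col(τ, <κ)`: a partial function of size less than `τ` from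
`K × W` to `K` with values `g (β, ξ) < β`, given by its graph. -/
structure GC (τ : Cardinal.{0}) (W K : Type) [LinearOrder K] where
  /-- the graph -/
  g : Set (K × W × K)
  sz : #g < τ
  fn : ∀ β ξ γ γ', (β, ξ, γ) ∈ g → (β, ξ, γ') ∈ g → γ = γ'
  val : ∀ β ξ γ, (β, ξ, γ) ∈ g → γ < β

instance (τ : Cardinal.{0}) (W K : Type) [LinearOrder K] : Preorder (GC τ W K) where
  le p q := q.g ⊆ p.g
  le_refl _ := subset_rfl
  le_trans _ _ _ h h' := h'.trans h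

variable {τ : Cardinal.{0}} {W K : Type} [LinearOrder K]

theorem GC.le_iff {p q : GC τ W K} : p ≤ q ↔ q.g ⊆ p.g := Iff.rfl

theorem mk_iUnion_lt (hτ : τ.IsRegular) {J X : Type} (hJ : #J < τ) (s : J → Set X)
    (h : ∀ j, #(s j) < τ) : #(⋃ j, s j : Set X) < τ := by
  rw [Cardinal.card_iUnion_lt_iff_forall_of_isRegular hτ hJ]
  exact h

theorem mk_union_lt (hτ : ℵ₀ ≤ τ) {X : Type} {s t : Set X} (hs : #s < τ) (ht : #t < τ) :
    #(s ∪ t : Set X) < τ :=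
  (Cardinal.mk_union_le _ _).trans_lt (Cardinal.add_lt_of_lt hτ hs ht)

theorem mk_insert_lt (hτ : ℵ₀ ≤ τ) {X : Type} {s : Set X} (hs : #s < τ) (a : X) :
    #(insert a s : Set X) < τ :=
  Cardinal.mk_insert_le.trans_lt
    (Cardinal.add_lt_of_lt hτ hs (lt_of_lt_of_le Cardinal.one_lt_aleph0 hτ))

/-- the union of a chain of conditions -/
def GC.un (hτ : τ.IsRegular) {J : Type} [LinearOrder J] (hJ : #J < τ) (p : J → GC τ W K)
    (hp : ∀ j j', j ≤ j' → p j' ≤ p j) : GC τ W K where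
  g := ⋃ j, (p j).g
  sz := mk_iUnion_lt hτ hJ _ fun j => (p j).sz
  fn := by
    intro β ξ γ γ' h1 h2
    obtain ⟨n, h1⟩ := Set.mem_iUnion.1 h1
    obtain ⟨m, h2⟩ := Set.mem_iUnion.1 h2
    rcases le_total n m with h | h
    · exact (p m).fn _ _ _ _ (hp _ _ h h1) h2
    · exact (p n).fn _ _ _ _ h1 (hp _ _ h h2)
  val := by
    intro β ξ γ h1
    obtain ⟨n, h1⟩ := Set.mem_iUnion.1 h1
    exact (p n).val _ _ _ h1

theorem GC.un_le (hτ : τ.IsRegular) {J : Type} [LinearOrder J] (hJ : #J < τ) (p : J → GC τ W K)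
    (hp : ∀ j j', j ≤ j' → p j' ≤ p j) (j : J) : GC.un hτ hJ p hp ≤ p j :=
  Set.subset_iUnion (fun n => (p n).g) j

theorem GC.seqClosed (hτ : τ.IsRegular) : SeqClosed τ (GC τ W K) := by
  intro J _ _ hJ p hp
  exact ⟨GC.un hτ hJ p hp, fun j => GC.un_le hτ hJ p hp j⟩

theorem GC.fresh {κ : Cardinal.{0}} (q : GC τ τ.ord.ToType κ.ord.ToType) :
    ∃ ξ : τ.ord.ToType, ∀ β γ, (β, ξ, γ) ∉ q.g := by
  by_contra hcon
  push Not at hcon
  have hS : (Set.univ : Set τ.ord.ToType) ⊆ (fun t => t.2.1) '' q.g := by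
    intro ξ _
    obtain ⟨β, γ, h⟩ := hcon ξ
    exact ⟨(β, ξ, γ), h, rfl⟩
  have h1 : #τ.ord.ToType ≤ #q.g := by
    rw [← Cardinal.mk_univ]
    exact (Cardinal.mk_le_mk_of_subset hS).trans Cardinal.mk_image_le
  rw [Cardinal.mk_ord_toType] at h1
  exact absurd q.sz (not_lt.2 h1)

/-- add one value -/
def GC.ins (hτ : ℵ₀ ≤ τ) (q : GC τ W K) (β : K) (ξ : W) (γ : K) (hξ : ∀ γ, (β, ξ, γ) ∉ q.g)
    (hγ : γ < β) : GC τ W K where
  g := insert (β, ξ, γ) q.g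
  sz := mk_insert_lt hτ q.sz _
  fn := by
    intro b x c c' h h'
    rcases h with h | h <;> rcases h' with h' | h'
    · simp only [Prod.mk.injEq] at h h'
      rw [h.2.2, h'.2.2]
    · simp only [Prod.mk.injEq] at h
      rw [h.1, h.2.1] at h'
      exact absurd h' (hξ _)
    · simp only [Prod.mk.injEq] at h'
      rw [h'.1, h'.2.1] at h
      exact absurd h (hξ _)
    · exact q.fn b x c c' h h'
  val := by
    intro b x c h
    rcases h with h | h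
    · simp only [Prod.mk.injEq] at h
      rw [h.1, h.2.2]
      exact hγ
    · exact q.val b x c h

theorem GC.ins_le (hτ : ℵ₀ ≤ τ) (q : GC τ W K) (β : K) (ξ : W) (γ : K)
    (hξ : ∀ γ, (β, ξ, γ) ∉ q.g) (hγ : γ < β) : GC.ins hτ q β ξ γ hξ hγ ≤ q :=
  Set.subset_insert _ _

theorem GC.mem_ins (hτ : ℵ₀ ≤ τ) (q : GC τ W K) (β : K) (ξ : W) (γ : K)
    (hξ : ∀ γ, (β, ξ, γ) ∉ q.g) (hγ : γ < β) : (β, ξ, γ) ∈ (GC.ins hτ q β ξ γ hξ hγ).g :=
  Set.mem_insert _ _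

theorem GC.collapsed {κ : Cardinal.{0}} (hτ : ℵ₀ ≤ τ) (p : GC τ τ.ord.ToType κ.ord.ToType) :
    p ∈ CollapsedTo (GC τ τ.ord.ToType κ.ord.ToType) τ κ := by
  intro ν hν
  obtain ⟨β, e, he, hlt⟩ := LC.collapsed_aux_inj hν
  let R : τ.ord.ToType → ν.out → Set (GC τ τ.ord.ToType κ.ord.ToType) :=
    fun ξ y => {q | (β, ξ, e y) ∈ q.g}
  have hR : ∀ ξ y, Down (R ξ y) := fun ξ y q hq q' hq' => hq' hq
  refine mem_fex_of_mem R ?_ ?_
  · exact down_fand (down_fall fun _ => down_fall fun _ => down_fall fun _ => down_fimp _ _)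
      (down_IsOnto _)
  · refine ⟨?_, ?_⟩
    · intro x y y'
      rw [mem_fimp]
      intro q _ hq
      obtain ⟨h1, h2⟩ := hq
      obtain ⟨q1, hq1, hm1⟩ := exists_of_meets (hR x y) h1
      obtain ⟨q2, hq2, hm2⟩ := exists_of_meets (hR x y') (down_meets _ _ h2 q1 hq1)
      refine ⟨q, le_rfl, ?_⟩
      show y = y'
      exact he (q2.fn β x _ _ (hR x y q1 hm1 q2 hq2) hm2)
    · intro y
      rw [mem_fex]
      intro q _
      obtain ⟨ξ, hξ⟩ := GC.fresh q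
      refine ⟨GC.ins hτ q β ξ (e y) (fun γ => hξ β γ) (hlt y), GC.ins_le _ _ _ _ _ _ _, ξ, ?_⟩
      exact meets_of_mem (show (β, ξ, e y) ∈ (GC.ins hτ q β ξ (e y) (fun γ => hξ β γ) (hlt y)).g
        from GC.mem_ins hτ q β ξ (e y) (fun γ => hξ β γ) (hlt y))

theorem enum_sets {κ μ : Cardinal.{0}} (h2 : 2 ^ μ < κ) :
    ∃ (β : κ.ord.ToType) (e : κ.ord.ToType → Set μ.ord.ToType), ∀ x, ∃ γ < β, e γ = x := by
  obtain ⟨ν, hν⟩ : ∃ ν : Cardinal.{0}, ν = 2 ^ μ := ⟨_, rfl⟩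
  rw [← hν] at h2
  have h : ν.ord < κ.ord := Cardinal.ord_lt_ord.2 h2
  let f := Ordinal.principalSegToType h
  have hc : #(Set μ.ord.ToType) = #(ν.ord.ToType) := by
    rw [Cardinal.mk_ord_toType, Cardinal.mk_set, Cardinal.mk_ord_toType, hν]
  obtain ⟨E⟩ := Cardinal.eq.1 hc
  refine ⟨f.top, Function.extend f E.symm (fun _ => ∅), fun x => ⟨f (E x), f.lt_top _, ?_⟩⟩
  rw [f.injective.extend_apply]
  simp

theorem GC.powOnto {κ μ : Cardinal.{0}} (hτ : τ.IsRegular) (hμ : μ < τ) (h2 : 2 ^ μ < κ)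
    (p : GC τ τ.ord.ToType κ.ord.ToType) :
    p ∈ PowOnto (GC τ τ.ord.ToType κ.ord.ToType) μ τ := by
  classical
  obtain ⟨β, e, he⟩ := enum_sets h2
  let F : τ.ord.ToType → μ.ord.ToType → Set (GC τ τ.ord.ToType κ.ord.ToType) :=
    fun ξ n => {q | ∃ γ, (β, ξ, γ) ∈ q.g ∧ n ∈ e γ}
  have hFd : ∀ ξ n, Down (F ξ n) := by
    rintro ξ n q ⟨γ, hγ, hn⟩ r hr
    exact ⟨γ, hr hγ, hn⟩
  refine mem_fex_of_mem F (down_fall fun _ => down_fex _) ?_
  intro X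
  rw [mem_fex]
  intro q hq
  obtain ⟨q1, hq1, hdec⟩ := (GC.seqClosed (W := τ.ord.ToType) (K := κ.ord.ToType)
    hτ).exists_forall_mem (N := μ.ord.ToType) (by rw [Cardinal.mk_ord_toType]; exact hμ)
    (fun n => {r | r ∈ meets (X n) ∨ r ∈ fnot (meets (X n))})
    (by
      rintro n r (h | h) s hs
      · exact Or.inl (down_meets _ _ h _ hs)
      · exact Or.inr (down_fnot _ _ h _ hs))
    (by
      intro n r
      by_cases h : ∃ s ≤ r, s ∈ meets (X n)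
      · obtain ⟨s, hs, h⟩ := h
        exact ⟨s, hs, Or.inl h⟩
      · refine ⟨r, le_rfl, Or.inr fun s hs h' => h ⟨s, hs, h'⟩⟩)
    q
  obtain ⟨γ, hγβ, heγ⟩ := he {n | q1 ∈ meets (X n)}
  obtain ⟨ξ, hξ⟩ := GC.fresh q1
  have h21 : GC.ins hτ.aleph0_le q1 β ξ γ (fun γ => hξ β γ) hγβ ≤ q1 := GC.ins_le _ _ _ _ _ _ _
  refine ⟨GC.ins hτ.aleph0_le q1 β ξ γ (fun γ => hξ β γ) hγβ, h21.trans hq1, ξ, ?_, ?_⟩
  · intro n
    rw [mem_fimp]
    intro r hr hrm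
    obtain ⟨q', hq', γ1, hγ1, hn⟩ := exists_of_meets (hFd ξ n) hrm
    refine ⟨q', hq', ?_⟩
    have h3 : (β, ξ, γ) ∈ q'.g := (hq'.trans hr)
      (GC.mem_ins hτ.aleph0_le q1 β ξ γ (fun γ => hξ β γ) hγβ)
    have h4 : γ1 = γ := q'.fn _ _ _ _ hγ1 h3
    rw [h4, heγ] at hn
    exact down_meets _ _ hn _ ((hq'.trans hr).trans h21)
  · intro n
    rw [mem_fimp]
    intro r hr hrm
    refine ⟨r, le_rfl, meets_of_mem ?_⟩
    refine ⟨γ, hr (GC.mem_ins hτ.aleph0_le q1 β ξ γ (fun γ => hξ β γ) hγβ), ?_⟩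
    rw [heγ]
    rcases hdec n with h | h
    · exact h
    · exact (h r (hr.trans h21) hrm).elim

/-- regular cardinals up to `τ` stay regular -/
theorem GC.staysRegular_le {κ ρ : Cardinal.{0}} (hτ : τ.IsRegular) (hρ : ρ.IsRegular)
    (hle : ρ ≤ τ) (p : GC τ τ.ord.ToType κ.ord.ToType) :
    p ∈ StaysRegular (GC τ τ.ord.ToType κ.ord.ToType) ρ :=
  staysRegular_proj hρ
    (fun _ D hN hd hdense q =>
      (GC.seqClosed (W := τ.ord.ToType) (K := κ.ord.ToType) hτ).exists_forall_mem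
        (hN.trans_le hle) D hd hdense q)
    id (fun _ _ h => h) (fun _ q' h => ⟨q', h, le_rfl⟩) (fun q' => ⟨q', le_rfl⟩) p

end Pool.Agent.Y582.LG
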