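import Pool.Agent.Y582.LG.Types

set_option autoImplicit false

/-!
# Dense pairs of functions, and the main combinatorial lemma
-/

namespace Pool.Agent.Y582.LG

open Cardinal Pool.Agent.Helper669.Forcing Pool.Agent.Helper669.K Pool.Agent.W931.KH
open Pool.Agent.H995R3 (Nrm const_reg const_small)

variable {κ τ : Cardinal.{0}} {K W : Type} [LinearOrder K] {U : Ultrafilter K}

/-- Meeting few sets which are dense below a condition. -/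
theorem meet_all {χ : Cardinal.{0}} {P : Type} [Preorder P]
    (h : SeqClosed χ P) {N : Type} (hN : #N < χ) (D : N → Set P) (hdown : ∀ i, Down (D i))
    (q0 : P) (hdense : ∀ i, ∀ q ≤ q0, ∃ q' ≤ q, q' ∈ D i) : ∃ q' ≤ q0, ∀ i, q' ∈ D i := by
  classical
  obtain ⟨q', hq', h1⟩ := h.exists_forall_mem hN (fun i => D i ∪ {r | ∀ r' ≤ r, ¬ r' ≤ q0})
    (by
      intro i r hr r' hr'
      rcases hr with hr | hr
      · exact Or.inl (hdown i r hr r' hr')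
      · exact Or.inr fun r'' hr'' => hr r'' (hr''.trans hr'))
    (by
      intro i q
      by_cases hq : ∃ r ≤ q, r ≤ q0
      · obtain ⟨r, hr, hr0⟩ := hq
        obtain ⟨r', hr', hD⟩ := hdense i r hr0
        exact ⟨r', hr'.trans hr, Or.inl hD⟩
      · push Not at hq
        exact ⟨q, le_rfl, Or.inr hq⟩) q0
  refine ⟨q', hq', fun i => ?_⟩
  rcases h1 i with h2 | h2
  · exact h2
  · exact absurd hq' (h2 q' le_rfl)

/-- `f ≤ g` almost everywhere -/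
def Le (U : Ultrafilter K) (f g : K → GC τ W K) : Prop := ∀ᶠ α in (U : Filter K), f α ≤ g α

theorem Le.refl (f : K → GC τ W K) : Le U f f := Filter.Eventually.of_forall fun _ => le_rfl

theorem Le.trans {f g h : K → GC τ W K} (h1 : Le U f g) (h2 : Le U g h) : Le U f h := by
  filter_upwards [h1, h2] with α h1 h2
  exact h1.trans h2

/-- the pair of functions `L`, `q` is dense for `C` -/
def Dens (U : Ultrafilter K) (C : K → K → Set (GC τ W K)) (L q : K → GC τ W K) : Prop :=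
  ∀ (L' q' : K → GC τ W K) (s' : GC τ W K), Le U L' L → Le U q' q → Ty U s' L' → Ty U s' q' →
    ∀ᶠ α in (U : Filter K), ∀ᶠ β in (U : Filter K), ∃ t, t ≤ L' α ∧ t ≤ q' β ∧ t ∈ C α β

/-- functions below `h` -/
def FSt (τ : Cardinal.{0}) (W : Type) {K : Type} [LinearOrder K] (U : Ultrafilter K) : Type :=
  {_x : K → GC τ W K // U = U}

instance : Preorder (FSt τ W U) where
  le x y := Le U x.1 y.1
  le_refl x := Le.refl x.1
  le_trans _ _ _ h h' := h.trans h'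

theorem FSt.seqClosed (hτ : τ.IsRegular) (hN : Nrm κ U) (h0 : τ < κ) :
    SeqClosed τ (FSt τ W U) := by
  intro J _ _ hJ p hp
  obtain ⟨H, hH, -⟩ := exists_lim hτ hN h0 hJ (fun j => (p j).1) hp
  exact ⟨⟨H, rfl⟩, hH⟩

/-- pairs of functions with a common stem -/
def PSt (τ : Cardinal.{0}) (W : Type) {K : Type} [LinearOrder K] (U : Ultrafilter K) : Type :=
  {x : (K → GC τ W K) × (K → GC τ W K) × GC τ W K // Ty U x.2.2 x.1 ∧ Ty U x.2.2 x.2.1}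

instance : Preorder (PSt τ W U) where
  le x y := Le U x.1.1 y.1.1 ∧ Le U x.1.2.1 y.1.2.1
  le_refl x := ⟨Le.refl _, Le.refl _⟩
  le_trans _ _ _ h h' := ⟨h.1.trans h'.1, h.2.trans h'.2⟩

theorem PSt.seqClosed (hτ : τ.IsRegular) (hN : Nrm κ U) (h0 : τ < κ) :
    SeqClosed τ (PSt τ W U) := by
  intro J _ _ hJ p hp
  obtain ⟨H1, hH1, hH1'⟩ := exists_lim hτ hN h0 hJ (fun j => (p j).1.1) (fun j j' h => (hp j j' h).1)
  obtain ⟨H2, hH2, hH2'⟩ := exists_lim hτ hN h0 hJ (fun j => (p j).1.2.1)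
    (fun j j' h => (hp j j' h).2)
  have hst : ∀ j j', j ≤ j' → (p j').1.2.2 ≤ (p j).1.2.2 := fun j j' h =>
    ((p j).2.1).le ((p j').2.1) (hp j j' h).1
  let t0 : GC τ W K := GC.un hτ hJ (fun n => (p n).1.2.2) hst
  have hT1 : Ty U t0 H1 := hH1' (fun n => (p n).1.2.2) t0 (fun n => (p n).2.1) rfl
  have hT2 : Ty U t0 H2 := hH2' (fun n => (p n).1.2.2) t0 (fun n => (p n).2.2) rfl
  exact ⟨⟨(H1, H2, t0), hT1, hT2⟩, fun j => ⟨hH1 j, hH2 j⟩⟩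

theorem exists_dens (hτ : τ.IsRegular) (hN : Nrm κ U) (h0 : τ < κ) {N : Type} (hNτ : #N < τ)
    (C : N → K → K → Set (GC τ W K)) (p0 : GC τ W K)
    (hc : ∀ t ≤ p0, ∀ α β, α < β → ∃ t' ≤ t, ∃ n, t' ∈ C n α β)
    (h : K → GC τ W K) (s : GC τ W K) (hs : Ty U s h) (hsp : s ≤ p0) :
    ∃ (i : N) (L q : K → GC τ W K) (s' : GC τ W K), Le U L h ∧ Le U q h ∧ Ty U s' L ∧ Ty U s' q ∧
      Dens U (C i) L q := by
  classical
  by_contra hcon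
  push Not at hcon
  let x0 : PSt τ W U := ⟨(h, h, s), hs, hs⟩
  obtain ⟨x, hx, hkill⟩ := meet_all (PSt.seqClosed (W := W) hτ hN h0) hNτ
    (fun n => {y : PSt τ W U | ∀ᶠ α in (U : Filter K), ∀ᶠ β in (U : Filter K),
      ¬ ∃ t, t ≤ y.1.1 α ∧ t ≤ y.1.2.1 β ∧ t ∈ C n α β})
    (by
      intro n y hy y' hy'
      have hy1 : ∀ᶠ α in (U : Filter K), ∀ᶠ β in (U : Filter K),
        ¬ ∃ t, t ≤ y.1.1 α ∧ t ≤ y.1.2.1 β ∧ t ∈ C n α β := hy
      show ∀ᶠ α in (U : Filter K), ∀ᶠ β in (U : Filter K),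
        ¬ ∃ t, t ≤ y'.1.1 α ∧ t ≤ y'.1.2.1 β ∧ t ∈ C n α β
      filter_upwards [hy1, hy'.1] with α h1 h2
      filter_upwards [h1, hy'.2] with β h3 h4
      rintro ⟨t, h5, h6, h7⟩
      exact h3 ⟨t, h5.trans h2, h6.trans h4, h7⟩) x0
    (by
      rintro n ⟨⟨L, q, s1⟩, h3, h4⟩ ⟨h1, h2⟩
      have h5 := hcon n L q s1 h1 h2 h3 h4
      unfold Dens at h5
      simp only [not_forall, exists_prop] at h5
      obtain ⟨L', q', s', h6, h7, h8, h9, h10⟩ := h5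
      refine ⟨⟨⟨L', q', s'⟩, h8, h9⟩, ⟨h6, h7⟩, ?_⟩
      show ∀ᶠ α in (U : Filter K), ∀ᶠ β in (U : Filter K),
        ¬ ∃ t, t ≤ L' α ∧ t ≤ q' β ∧ t ∈ C n α β
      rw [← Ultrafilter.eventually_not] at h10
      filter_upwards [h10] with α hα
      rw [← Ultrafilter.eventually_not] at hα
      exact hα)
  obtain ⟨⟨H1, H2, t0⟩, hT1, hT2⟩ := x
  have hH1 : Le U H1 h := hx.1
  have hH2 : Le U H2 h := hx.2
  have hkall : ∀ᶠ α in (U : Filter K), ∀ n : N, ∀ᶠ β in (U : Filter K),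
      ¬ ∃ t, t ≤ H1 α ∧ t ≤ H2 β ∧ t ∈ C n α β :=
    hN.comp (hNτ.trans h0) (fun (n : N) α => ∀ᶠ β in (U : Filter K),
      ¬ ∃ t, t ≤ H1 α ∧ t ≤ H2 β ∧ t ∈ C n α β) hkill
  obtain ⟨α, h1, h3⟩ := (hkall.and (Ty.h_le hT1)).exists
  have hkβ : ∀ᶠ β in (U : Filter K), ∀ n : N,
      ¬ ∃ t, t ≤ H1 α ∧ t ≤ H2 β ∧ t ∈ C n α β :=
    hN.comp (hNτ.trans h0) (fun (n : N) β =>
      ¬ ∃ t, t ≤ H1 α ∧ t ≤ H2 β ∧ t ∈ C n α β) h1
  obtain ⟨β, h4, h6, h7⟩ :=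
    (hkβ.and ((Ty.add_le hτ.aleph0_le hN h0 hT2 h3).and (hN.big α))).exists
  have ht0 : t0 ≤ s := hs.le hT1 hH1
  have h8 : add (H1 α) (H2 β) ≤ p0 := h6.1.trans (h3.trans (ht0.trans hsp))
  obtain ⟨t', ht', n, hn⟩ := hc _ h8 α β h7
  exact h4 n ⟨t', ht'.trans h6.1, ht'.trans h6.2, hn⟩

theorem exists_good (hτ : τ.IsRegular) (hN : Nrm κ U) (h0 : τ < κ) (hW : #W < κ) {N : Type}
    (hNτ : #N < τ) (C : N → K → K → Set (GC τ W K)) (p0 : GC τ W K)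
    (hc : ∀ t ≤ p0, ∀ α β, α < β → ∃ t' ≤ t, ∃ n, t' ∈ C n α β)
    (h : K → GC τ W K) (s : GC τ W K) (hs : Ty U s h) (hsp : s ≤ p0) :
    ∃ (i : N) (h1 : K → GC τ W K), Le U h1 h ∧ ∀ h', Le U h' h1 →
      ∃ (L q : K → GC τ W K) (s' : GC τ W K), Le U L h' ∧ Le U q h' ∧ Ty U s' L ∧ Ty U s' q ∧
        Dens U (C i) L q := by
  classical
  by_contra hcon
  push Not at hcon
  let x0 : FSt τ W U := ⟨h, rfl⟩
  obtain ⟨⟨H, hH0⟩, hx, hkill⟩ := meet_all (FSt.seqClosed (W := W) hτ hN h0) hNτ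
    (fun n => {y : FSt τ W U | ∀ (L q : K → GC τ W K) (s' : GC τ W K), Le U L y.1 → Le U q y.1 →
      Ty U s' L → Ty U s' q → ¬ Dens U (C n) L q})
    (by
      intro n y hy y' hy' L q s' h1 h2 h3 h4
      exact hy L q s' (h1.trans hy') (h2.trans hy') h3 h4) x0
    (by
      rintro n ⟨x, hx0⟩ hx
      obtain ⟨y, hy, hy'⟩ := hcon n x hx
      exact ⟨⟨y, rfl⟩, hy, hy'⟩)
  have hHh : Le U H h := hx
  obtain ⟨s1, hs1⟩ := exists_ty hN h0 hW H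
  have h1 : s1 ≤ p0 := (hs.le hs1 hHh).trans hsp
  obtain ⟨i, L, q, s', h2, h3, h4, h5, h6⟩ := exists_dens hτ hN h0 hNτ C p0 hc H s1 hs1 h1
  exact hkill i L q s' h2 h3 h4 h5 h6

/-- the main combinatorial lemma -/
theorem exists_seq (hτ : τ.IsRegular) (hN : Nrm κ U) (h0 : τ < κ) (hW : #W < κ) {N : Type}
    (hNτ : #N < τ) (C : N → K → K → Set (GC τ W K)) (p0 : GC τ W K)
    (hc : ∀ t ≤ p0, ∀ α β, α < β → ∃ t' ≤ t, ∃ n, t' ∈ C n α β) :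
    ∃ (i : N) (L q : ℕ → K → GC τ W K) (s : ℕ → GC τ W K), s 0 ≤ p0 ∧
      (∀ n, s (n + 1) ≤ s n) ∧ (∀ n, Ty U (s n) (L n)) ∧ (∀ n, Ty U (s n) (q n)) ∧
      (∀ k m, k < m → Le U (L m) (q k)) ∧ (∀ n, Dens U (C i) (L n) (q n)) := by
  classical
  have hs : Ty U p0 (fun _ => p0) := by
    filter_upwards [ev_bdd hN h0 p0] with α hα
    ext x
    exact ⟨fun h => h.1, fun h => ⟨h, hα x h⟩⟩
  obtain ⟨i, h1, hh1, hgood⟩ := exists_good hτ hN h0 hW hNτ C p0 hc (fun _ => p0) p0 hs le_rfl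
  let St : Type := {x : (K → GC τ W K) × (K → GC τ W K) × GC τ W K //
    Le U x.1 h1 ∧ Le U x.2.1 h1 ∧ Ty U x.2.2 x.1 ∧ Ty U x.2.2 x.2.1 ∧ Dens U (C i) x.1 x.2.1}
  have step : ∀ h' : K → GC τ W K, Le U h' h1 → ∃ y : St, Le U y.1.1 h' ∧ Le U y.1.2.1 h' := by
    intro h' hh'
    obtain ⟨L, q, s', h2, h3, h4, h5, h6⟩ := hgood h' hh'
    exact ⟨⟨⟨L, q, s'⟩, h2.trans hh', h3.trans hh', h4, h5, h6⟩, h2, h3⟩
  obtain ⟨x0, hx0, hx0'⟩ := step h1 (Le.refl h1)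
  have step' : ∀ x : St, ∃ y : St, Le U y.1.1 x.1.2.1 ∧ Le U y.1.2.1 x.1.2.1 :=
    fun x => step x.1.2.1 x.2.2.1
  choose nxt hn1 hn2 using step'
  let sq : ℕ → St := fun n => Nat.rec x0 (fun _ x => nxt x) n
  have hsq : ∀ n, sq (n + 1) = nxt (sq n) := fun n => rfl
  have hL : ∀ n, Le U (sq (n + 1)).1.1 (sq n).1.2.1 := fun n => by rw [hsq]; exact hn1 _
  have hq : ∀ n, Le U (sq (n + 1)).1.2.1 (sq n).1.2.1 := fun n => by rw [hsq]; exact hn2 _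
  have hqq : ∀ k m, k ≤ m → Le U (sq m).1.2.1 (sq k).1.2.1 := by
    intro k m hkm
    induction m, hkm using Nat.le_induction with
    | base => exact Le.refl _
    | succ m _ ih => exact (hq m).trans ih
  refine ⟨i, fun n => (sq n).1.1, fun n => (sq n).1.2.1, fun n => (sq n).1.2.2, ?_, ?_, ?_, ?_, ?_,
    ?_⟩
  · exact hs.le (sq 0).2.2.2.1 ((sq 0).2.1.trans hh1)
  · intro n
    exact ((sq n).2.2.2.2.1).le ((sq (n + 1)).2.2.2.2.1) (hq n)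
  · intro n
    exact (sq n).2.2.2.1
  · intro n
    exact (sq n).2.2.2.2.1
  · intro k m hkm
    obtain ⟨m, rfl⟩ : ∃ m', m = m' + 1 := ⟨m - 1, by omega⟩
    exact (hL m).trans (hqq k m (by omega))
  · intro n
    exact (sq n).2.2.2.2.2

/-- common neighbours -/
theorem common (hτ : ℵ₀ ≤ τ) (hN : Nrm κ U) (h0 : τ < κ) (hW : #W < κ)
    (C : K → K → Set (GC τ W K))
    (hC : ∀ α β, Down (C α β)) (L q : ℕ → K → GC τ W K) (s : ℕ → GC τ W K) (p : GC τ W K)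
    (hp : ∀ n, p ≤ s n) (hTL : ∀ n, Ty U (s n) (L n)) (hTq : ∀ n, Ty U (s n) (q n))
    (hLq : ∀ k m, k < m → Le U (L m) (q k)) (hD : ∀ n, Dens U C (L n) (q n)) (k l m : ℕ)
    (hk : k < m) (hl : l < m) :
    ∀ᶠ α in (U : Filter K), ∀ᶠ β in (U : Filter K), ∀ t, t ≤ L k α → t ≤ L l β → t ≤ p →
      ∀ᶠ γ in (U : Filter K), ∃ v, v ≤ t ∧ v ≤ L m γ ∧ v ∈ C α γ ∧ v ∈ C β γ := by
  classical
  by_contra hcon
  rw [← Ultrafilter.eventually_not] at hcon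
  let B : K → K → GC τ W K → Prop := fun α β t => t ≤ L k α ∧ t ≤ L l β ∧ t ≤ p ∧
    ∀ᶠ γ in (U : Filter K), ¬ ∃ v, v ≤ t ∧ v ≤ L m γ ∧ v ∈ C α γ ∧ v ∈ C β γ
  let t : K → K → GC τ W K := fun α β => if h : ∃ t, B α β t then h.choose else p
  have hB : ∀ᶠ α in (U : Filter K), ∀ᶠ β in (U : Filter K), B α β (t α β) := by
    filter_upwards [hcon] with α hα
    rw [← Ultrafilter.eventually_not] at hα
    filter_upwards [hα] with β hβ
    have h : ∃ t, B α β t := by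
      push Not at hβ
      obtain ⟨t1, h1, h2, h3, h4⟩ := hβ
      refine ⟨t1, h1, h2, h3, ?_⟩
      filter_upwards [h4] with γ hγ
      rintro ⟨v, hv1, hv2, hv3, hv4⟩
      exact hγ v hv1 hv2 hv3 hv4
    show B α β (if h : ∃ t, B α β t then h.choose else p)
    rw [dif_pos h]
    exact h.choose_spec
  choose σ' hσ' using fun α => exists_ty hN h0 hW (t α)
  obtain ⟨σ, hσ⟩ := exists_ty hN h0 hW σ'
  have hτL : Le U σ' (L k) := by
    filter_upwards [hB] with α hα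
    exact (hσ' α).le_const hN h0 (hα.mono fun β hβ => hβ.1)
  have hτp : ∀ᶠ α in (U : Filter K), σ' α ≤ p := by
    filter_upwards [hB] with α hα
    exact (hσ' α).le_const hN h0 (hα.mono fun β hβ => hβ.2.2.1)
  have hσp : σ ≤ p := hσ.le_const hN h0 hτp
  have hσm : σ ≤ s m := hσp.trans (hp m)
  have hq'T := (hTL m).add hτ hN h0 hσm
  have hq'le := (hTL m).add_le hτ hN h0 hσm
  have hD1 := hD k σ' (fun γ => add σ (L m γ)) σ hτL
    (Le.trans (hq'le.mono fun γ hγ => hγ.2) (hLq k m hk)) hσ hq'T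
  let u : K → K → GC τ W K := fun α γ =>
    if h : ∃ u, u ≤ σ' α ∧ u ≤ add σ (L m γ) ∧ u ∈ C α γ then h.choose else p
  have hu : ∀ᶠ α in (U : Filter K), ∀ᶠ γ in (U : Filter K),
      u α γ ≤ σ' α ∧ u α γ ≤ add σ (L m γ) ∧ u α γ ∈ C α γ := by
    filter_upwards [hD1] with α hα
    filter_upwards [hα] with γ hγ
    show (if h : ∃ u, u ≤ σ' α ∧ u ≤ add σ (L m γ) ∧ u ∈ C α γ then h.choose else p) ≤ σ' α ∧
      (if h : ∃ u, u ≤ σ' α ∧ u ≤ add σ (L m γ) ∧ u ∈ C α γ then h.choose else p) ≤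
        add σ (L m γ) ∧
      (if h : ∃ u, u ≤ σ' α ∧ u ≤ add σ (L m γ) ∧ u ∈ C α γ then h.choose else p) ∈ C α γ
    rw [dif_pos hγ]
    exact hγ.choose_spec
  obtain ⟨α, hα1, hα2⟩ := (hB.and hu).exists
  obtain ⟨ρ, hρ⟩ := exists_ty hN h0 hW (u α)
  have hρτ : ρ ≤ σ' α := hρ.le_const hN h0 (hα2.mono fun γ hγ => hγ.1)
  have hL2T := (hσ' α).add hτ hN h0 hρτ
  have hL2le := (hσ' α).add_le hτ hN h0 hρτ
  have hD2 := hD l (fun β => add ρ (t α β)) (u α) ρ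
    (Le.trans (hL2le.mono fun β hβ => hβ.2) (hα1.mono fun β hβ => hβ.2.1))
    (by
      refine Le.trans ?_ (hLq l m hl)
      filter_upwards [hα2, hq'le] with γ h1 h2
      exact h1.2.1.trans h2.2) hL2T hρ
  obtain ⟨β, hβ1, hβ2, hβ3⟩ := (hα1.and (hD2.and hL2le)).exists
  obtain ⟨γ, hγ1, hγ2, hγ3, hγ4⟩ := (hβ1.2.2.2.and (hβ2.and (hα2.and hq'le))).exists
  obtain ⟨v, hv1, hv2, hv3⟩ := hγ2
  exact hγ1 ⟨v, hv1.trans hβ3.2, hv2.trans (hγ3.2.1.trans hγ4.2), hC _ _ _ hγ3.2.2 _ hv2, hv3⟩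

end Pool.Agent.Y582.LG
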