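import Pool.Agent.Y582.LG.Base
import Pool.Agent.H995R3.Types

set_option autoImplicit false

/-!
# Functions from a normal ultrafilter into the Levy collapse, and their stems
-/

namespace Pool.Agent.Y582.LG

open Cardinal Pool.Agent.Helper669.Forcing Pool.Agent.Helper669.K Pool.Agent.W931.KH
open Pool.Agent.H995R3 (Nrm const_reg const_small)

variable {κ τ : Cardinal.{0}} {K W : Type} [LinearOrder K] {U : Ultrafilter K}

/-- the union of the two conditions is a function -/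
def Cp (p q : GC τ W K) : Prop :=
  ∀ β ξ γ γ', (β, ξ, γ) ∈ p.g → (β, ξ, γ') ∈ q.g → γ = γ'

/-- the union of two conditions -/
def uni (hτ : ℵ₀ ≤ τ) (p q : GC τ W K) (h : Cp p q) : GC τ W K where
  g := p.g ∪ q.g
  sz := mk_union_lt hτ p.sz q.sz
  fn := by
    rintro β ξ γ γ' (h1 | h1) (h2 | h2)
    · exact p.fn _ _ _ _ h1 h2
    · exact h _ _ _ _ h1 h2
    · exact (h _ _ _ _ h2 h1).symm
    · exact q.fn _ _ _ _ h1 h2
  val := by
    rintro β ξ γ (h1 | h1)
    · exact p.val _ _ _ h1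
    · exact q.val _ _ _ h1

open Classical in
/-- the union if it is a condition -/
noncomputable def add (p q : GC τ W K) : GC τ W K :=
  if h : ℵ₀ ≤ τ ∧ Cp p q then uni h.1 p q h.2 else q

theorem add_g (hτ : ℵ₀ ≤ τ) {p q : GC τ W K} (h : Cp p q) : (add p q).g = p.g ∪ q.g := by
  unfold add
  rw [dif_pos ⟨hτ, h⟩]
  rfl

theorem add_le_left (hτ : ℵ₀ ≤ τ) {p q : GC τ W K} (h : Cp p q) : add p q ≤ p := by
  rw [GC.le_iff, add_g hτ h]
  exact Set.subset_union_left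

theorem add_le_right (hτ : ℵ₀ ≤ τ) {p q : GC τ W K} (h : Cp p q) : add p q ≤ q := by
  rw [GC.le_iff, add_g hτ h]
  exact Set.subset_union_right

/-- the part of a condition below `α` -/
def cut (p : GC τ W K) (α : K) : Set (K × W × K) := {x | x ∈ p.g ∧ x.1 < α}

/-- the function `h` has the stem `s` -/
def Ty (U : Ultrafilter K) (s : GC τ W K) (h : K → GC τ W K) : Prop :=
  ∀ᶠ α in (U : Filter K), cut (h α) α = s.g

theorem ev_bdd (hN : Nrm κ U) (h0 : τ < κ) (p : GC τ W K) :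
    ∀ᶠ α in (U : Filter K), ∀ x ∈ p.g, x.1 < α := by
  have h1 : #p.g < κ := p.sz.trans h0
  have h2 := hN.comp h1 (fun (x : p.g) α => x.1.1 < α) (fun x => hN.big _)
  filter_upwards [h2] with α hα x hx
  exact hα ⟨x, hx⟩

theorem exists_enum {T : Type} (S : Set T) (hS : #S ≤ τ) :
    ∃ f : τ.ord.ToType → Option T, S = {x | ∃ n, f n = some x} := by
  classical
  rcases S.eq_empty_or_nonempty with h | h
  · refine ⟨fun _ => none, ?_⟩
    subst h
    ext x
    simp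
  · have hne : Nonempty S := h.to_subtype
    have h1 : #S ≤ #τ.ord.ToType := by rw [Cardinal.mk_ord_toType]; exact hS
    obtain ⟨i⟩ := h1
    refine ⟨fun n => some (Function.invFun i n).1, ?_⟩
    ext x
    constructor
    · intro hx
      refine ⟨i ⟨x, hx⟩, ?_⟩
      show some (Function.invFun i (i ⟨x, hx⟩)).1 = some x
      rw [Function.leftInverse_invFun i.injective]
    · rintro ⟨n, hn⟩
      rw [Option.some.injEq] at hn
      rw [← hn]
      exact (Function.invFun i n).2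

theorem exists_ty (hN : Nrm κ U) (h0 : τ < κ) (hW : #W < κ) (h : K → GC τ W K) :
    ∃ s : GC τ W K, Ty U s h := by
  have hsz : ∀ α, #(cut (h α) α) < τ := fun α =>
    (Cardinal.mk_le_mk_of_subset (fun x hx => hx.1)).trans_lt (h α).sz
  choose f hf using fun α => exists_enum (cut (h α) α) (hsz α).le
  have hv : ∀ n, ∃ v : Option (K × W × K), ∀ᶠ α in (U : Filter K), f α n = v := by
    intro n
    by_cases hn : ∀ᶠ α in (U : Filter K), f α n = none
    · exact ⟨none, hn⟩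
    · rw [← Ultrafilter.eventually_not] at hn
      obtain ⟨α0, hα0⟩ := hn.exists
      obtain ⟨x0, hx0⟩ := Option.ne_none_iff_exists'.1 hα0
      have he : ∀ᶠ α in (U : Filter K), f α n = some ((f α n).getD x0) ∧
          ((f α n).getD x0) ∈ cut (h α) α := by
        filter_upwards [hn] with α hα
        obtain ⟨x, hx⟩ := Option.ne_none_iff_exists'.1 hα
        rw [hx]
        refine ⟨rfl, ?_⟩
        rw [hf α]
        exact ⟨n, hx⟩
      obtain ⟨a, ha⟩ := const_reg hN (fun α => ((f α n).getD x0).1) (by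
        filter_upwards [he] with α hα
        exact hα.2.2)
      obtain ⟨c, hc⟩ := const_reg hN (fun α => ((f α n).getD x0).2.2) (by
        filter_upwards [he] with α hα
        exact ((h α).val _ _ _ hα.2.1).trans hα.2.2)
      obtain ⟨w, hw⟩ := const_small hN hW (fun α => ((f α n).getD x0).2.1)
      refine ⟨some (a, w, c), ?_⟩
      filter_upwards [he, ha, hc, hw] with α h1 h2 h3 h4
      rw [h1.1, ← h2, ← h3, ← h4]
  choose v hv using hv
  have hall : ∀ᶠ α in (U : Filter K), ∀ n, f α n = v n :=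
    hN.comp (by rw [Cardinal.mk_ord_toType]; exact h0) (fun n α => f α n = v n) hv
  have hS : ∀ᶠ α in (U : Filter K), cut (h α) α = {x | ∃ n, v n = some x} := by
    filter_upwards [hall] with α hα
    rw [hf α]
    simp only [hα]
  obtain ⟨α0, hα0⟩ := hS.exists
  refine ⟨⟨{x | ∃ n, v n = some x}, ?_, ?_, ?_⟩, hS⟩
  · rw [← hα0]
    exact hsz α0
  · rw [← hα0]
    intro β ξ γ γ' h1 h2
    exact (h α0).fn _ _ _ _ h1.1 h2.1
  · rw [← hα0]
    intro β ξ γ h1
    exact (h α0).val _ _ _ h1.1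

theorem Ty.le {s s' : GC τ W K} {h h' : K → GC τ W K} (H : Ty U s h) (H' : Ty U s' h')
    (hle : ∀ᶠ α in (U : Filter K), h' α ≤ h α) : s' ≤ s := by
  obtain ⟨α, h1, h2, h3⟩ := (H.and (H'.and hle)).exists
  rw [GC.le_iff, ← h1, ← h2]
  exact fun x hx => ⟨h3 hx.1, hx.2⟩

theorem Ty.le_const (hN : Nrm κ U) (h0 : τ < κ) {s r : GC τ W K} {h : K → GC τ W K}
    (H : Ty U s h) (hle : ∀ᶠ α in (U : Filter K), h α ≤ r) : s ≤ r := by
  obtain ⟨α, h1, h2, h3⟩ := (H.and (hle.and (ev_bdd hN h0 r))).exists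
  rw [GC.le_iff, ← h1]
  exact fun x hx => ⟨h2 hx, h3 x hx⟩

theorem Ty.h_le {s : GC τ W K} {h : K → GC τ W K} (H : Ty U s h) :
    ∀ᶠ α in (U : Filter K), h α ≤ s := by
  filter_upwards [H] with α hα
  rw [GC.le_iff, ← hα]
  exact fun x hx => hx.1

theorem Ty.cp (hN : Nrm κ U) (h0 : τ < κ) {s q : GC τ W K} {h : K → GC τ W K}
    (H : Ty U s h) (hq : q ≤ s) : ∀ᶠ α in (U : Filter K), Cp q (h α) := by
  filter_upwards [H, ev_bdd hN h0 q] with α hα hb β ξ γ γ' h1 h2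
  have h3 : (β, ξ, γ') ∈ cut (h α) α := ⟨h2, hb (β, ξ, γ) h1⟩
  rw [hα] at h3
  exact q.fn _ _ _ _ h1 (hq h3)

theorem Ty.add (hτ : ℵ₀ ≤ τ) (hN : Nrm κ U) (h0 : τ < κ) {s q : GC τ W K} {h : K → GC τ W K}
    (H : Ty U s h) (hq : q ≤ s) : Ty U q (fun α => add q (h α)) := by
  filter_upwards [H, ev_bdd hN h0 q, H.cp hN h0 hq] with α hα hb hcp
  ext x
  constructor
  · rintro ⟨h1, h2⟩
    rw [add_g hτ hcp] at h1
    rcases h1 with h1 | h1
    · exact h1
    · have h3 : x ∈ cut (h α) α := ⟨h1, h2⟩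
      rw [hα] at h3
      exact hq h3
  · intro h1
    refine ⟨?_, hb x h1⟩
    rw [add_g hτ hcp]
    exact Or.inl h1

theorem Ty.add_le (hτ : ℵ₀ ≤ τ) (hN : Nrm κ U) (h0 : τ < κ) {s q : GC τ W K}
    {h : K → GC τ W K} (H : Ty U s h) (hq : q ≤ s) :
    ∀ᶠ α in (U : Filter K), Pool.Agent.Y582.LG.add q (h α) ≤ q ∧
      Pool.Agent.Y582.LG.add q (h α) ≤ h α := by
  filter_upwards [H.cp hN h0 hq] with α hcp
  exact ⟨add_le_left hτ hcp, add_le_right hτ hcp⟩

theorem exists_lim (hτ : τ.IsRegular) (hN : Nrm κ U) (h0 : τ < κ) {J : Type} [LinearOrder J]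
    [Nonempty J] (hJ : #J < τ) (h : J → K → GC τ W K)
    (hle : ∀ j j', j ≤ j' → ∀ᶠ α in (U : Filter K), h j' α ≤ h j α) :
    ∃ H : K → GC τ W K, (∀ n, ∀ᶠ α in (U : Filter K), H α ≤ h n α) ∧
      ∀ (s : J → GC τ W K) (t : GC τ W K), (∀ n, Ty U (s n) (h n)) → t.g = (⋃ n, (s n).g) →
        Ty U t H := by
  classical
  have hJJ : #(J × J) < κ := by
    rw [Cardinal.mk_prod, Cardinal.lift_id]
    exact (Cardinal.mul_lt_of_lt hτ.aleph0_le hJ hJ).trans h0
  have hall : ∀ᶠ α in (U : Filter K), ∀ jj : J × J, jj.1 ≤ jj.2 → h jj.2 α ≤ h jj.1 α := by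
    refine hN.comp hJJ (fun (jj : J × J) α => jj.1 ≤ jj.2 → h jj.2 α ≤ h jj.1 α) fun jj => ?_
    by_cases hj : jj.1 ≤ jj.2
    · exact (hle _ _ hj).mono fun α hα _ => hα
    · exact Filter.Eventually.of_forall fun α h => absurd h hj
  obtain ⟨j0⟩ := (inferInstance : Nonempty J)
  refine ⟨fun α => if hα : ∀ jj : J × J, jj.1 ≤ jj.2 → h jj.2 α ≤ h jj.1 α then
      GC.un hτ hJ (fun n => h n α) (fun j j' hj => hα (j, j') hj) else h j0 α, ?_, ?_⟩
  · intro n
    filter_upwards [hall] with α hα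
    rw [dif_pos hα]
    exact GC.un_le hτ hJ (fun n => h n α) _ n
  · intro s t hs ht
    have hs' : ∀ᶠ α in (U : Filter K), ∀ n : J, cut (h n α) α = (s n).g :=
      hN.comp (hJ.trans h0) (fun (n : J) α => cut (h n α) α = (s n).g) hs
    filter_upwards [hall, hs'] with α hα hsα
    rw [dif_pos hα, ht]
    ext x
    simp only [cut, GC.un, Set.mem_iUnion, Set.mem_ofPred_eq]
    constructor
    · rintro ⟨⟨n, hn⟩, hx⟩
      refine ⟨n, ?_⟩
      rw [← hsα n]
      exact ⟨hn, hx⟩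
    · rintro ⟨n, hn⟩
      rw [← hsα n] at hn
      exact ⟨⟨n, hn.1⟩, hn.2⟩

/-- the chain condition -/
theorem GC.cc (hτ : ℵ₀ ≤ τ) {U : Ultrafilter κ.ord.ToType} (hN : Nrm κ U) (h0 : τ < κ)
    (ι : Type) (f : ι → GC τ τ.ord.ToType κ.ord.ToType) (hι : κ ≤ #ι) :
    ∃ i j, i ≠ j ∧ ∃ r, r ≤ f i ∧ r ≤ f j := by
  have h1 : #κ.ord.ToType ≤ #ι := by rw [Cardinal.mk_ord_toType]; exact hι
  obtain ⟨e⟩ := h1
  obtain ⟨s, hs⟩ := exists_ty hN h0 (by rw [Cardinal.mk_ord_toType]; exact h0)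
    (fun α => f (e α))
  obtain ⟨α, hα⟩ := hs.h_le.exists
  obtain ⟨β, hβ, hαβ⟩ := ((hs.cp hN h0 hα).and (hN.big α)).exists
  exact ⟨e α, e β, fun h => absurd (e.injective h) hαβ.ne, uni hτ _ _ hβ,
    Set.subset_union_left, Set.subset_union_right⟩

end Pool.Agent.Y582.LG
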