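import Pool.Agent.Y582.LG.Dense
import Pool.Agent.H833R3.WC

set_option autoImplicit false

/-!
# Operations on the conditions of the Levy collapse `Col(τ, <κ)`
-/

namespace Pool.Agent.Y582.LG.Wc

open Cardinal Set Filter Pool.Agent.Y582.LG Pool.Agent.W931.KH
open Pool.Agent.H833R3.Levy (Inac PairPart Compl exists_filter)

variable {τ : Cardinal.{0}} {K W : Type} [LinearOrder K]

/-- the part of `p` below `γ` -/
def trunc (γ : K) (p : GC τ W K) : GC τ W K where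
  g := {x | x ∈ p.g ∧ x.1 < γ}
  sz := (Cardinal.mk_le_mk_of_subset (fun x hx => hx.1)).trans_lt p.sz
  fn := fun β ξ a b h1 h2 => p.fn β ξ a b h1.1 h2.1
  val := fun β ξ a h => p.val β ξ a h.1

theorem le_trunc (γ : K) (p : GC τ W K) : p ≤ trunc γ p := fun _ h => h.1

theorem trunc_mono {γ : K} {p q : GC τ W K} (h : p ≤ q) : trunc γ p ≤ trunc γ q :=
  fun _ hx => ⟨h hx.1, hx.2⟩

/-- the union of `p` and `q`, where `p` decides in case of conflict -/
def join (hτ : τ.IsRegular) (p q : GC τ W K) : GC τ W K where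
  g := p.g ∪ {x | x ∈ q.g ∧ ∀ y, (x.1, x.2.1, y) ∉ p.g}
  sz := mk_union_lt hτ.aleph0_le p.sz
    ((Cardinal.mk_le_mk_of_subset (fun x hx => hx.1)).trans_lt q.sz)
  fn := by
    rintro β ξ a b (h1 | ⟨h1, h1'⟩) (h2 | ⟨h2, h2'⟩)
    · exact p.fn _ _ _ _ h1 h2
    · exact absurd h1 (h2' a)
    · exact absurd h2 (h1' b)
    · exact q.fn _ _ _ _ h1 h2
  val := by
    rintro β ξ a (h1 | h1)
    · exact p.val _ _ _ h1
    · exact q.val _ _ _ h1.1

theorem join_le_left (hτ : τ.IsRegular) (p q : GC τ W K) : join hτ p q ≤ p :=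
  fun _ h => Or.inl h

theorem join_le_right (hτ : τ.IsRegular) {p q : GC τ W K} (h : Cp p q) : join hτ p q ≤ q := by
  rintro ⟨β, ξ, a⟩ hx
  by_cases h1 : ∀ y, (β, ξ, y) ∉ p.g
  · exact Or.inr ⟨hx, h1⟩
  · push Not at h1
    obtain ⟨y, hy⟩ := h1
    rw [← h β ξ y a hy hx]
    exact Or.inl hy

theorem mem_join {hτ : τ.IsRegular} {p q : GC τ W K} {x : K × W × K} (h : x ∈ (join hτ p q).g) :
    x ∈ p.g ∨ x ∈ q.g := by
  rcases h with h | h
  · exact Or.inl h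
  · exact Or.inr h.1

theorem compat_of_le {p q r : GC τ W K} (h1 : r ≤ p) (h2 : r ≤ q) : Cp p q :=
  fun _ _ _ _ hy hz => r.fn _ _ _ _ (h1 hy) (h2 hz)

theorem le_join (hτ : τ.IsRegular) {p q r : GC τ W K} (h1 : r ≤ p) (h2 : r ≤ q) :
    r ≤ join hτ p q := by
  intro x h
  rcases mem_join h with h | h
  · exact h1 h
  · exact h2 h

open Classical in
/-- the union of a chain of conditions -/
noncomputable def lim (hτ : τ.IsRegular) {M : Type} (hM : #M < τ) (m0 : M)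
    (s : M → GC τ W K) : GC τ W K :=
  if h : ∀ i j, s i ≤ s j ∨ s j ≤ s i then
    { g := ⋃ i, (s i).g
      sz := mk_iUnion_lt hτ hM _ fun j => (s j).sz
      fn := by
        intro β ξ γ γ' h1 h2
        obtain ⟨n, h1⟩ := Set.mem_iUnion.1 h1
        obtain ⟨m, h2⟩ := Set.mem_iUnion.1 h2
        rcases h n m with h | h
        · exact (s n).fn _ _ _ _ h1 (h h2)
        · exact (s m).fn _ _ _ _ (h h1) h2
      val := by
        intro β ξ γ h1
        obtain ⟨n, h1⟩ := Set.mem_iUnion.1 h1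
        exact (s n).val _ _ _ h1 }
  else s m0

theorem mem_lim {hτ : τ.IsRegular} {M : Type} {hM : #M < τ} {m0 : M} {s : M → GC τ W K}
    {x : K × W × K} (h : x ∈ (lim hτ hM m0 s).g) : ∃ n, x ∈ (s n).g := by
  unfold lim at h
  split_ifs at h with h1
  · exact Set.mem_iUnion.1 h
  · exact ⟨m0, h⟩

theorem lim_le (hτ : τ.IsRegular) {M : Type} (hM : #M < τ) (m0 : M) {s : M → GC τ W K}
    (h : ∀ i j, s i ≤ s j ∨ s j ≤ s i) (n : M) : lim hτ hM m0 s ≤ s n := by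
  intro x hx
  unfold lim
  rw [dif_pos h]
  exact Set.mem_iUnion.2 ⟨n, hx⟩

theorem le_lim {hτ : τ.IsRegular} {M : Type} {hM : #M < τ} {m0 : M} {s : M → GC τ W K}
    {p : GC τ W K} (h : ∀ n, p ≤ s n) : p ≤ lim hτ hM m0 s := by
  intro x hx
  obtain ⟨n, hn⟩ := mem_lim hx
  exact h n hn

theorem le_trunc_lim {hτ : τ.IsRegular} {M : Type} {hM : #M < τ} {m0 : M} {s : M → GC τ W K}
    {p : GC τ W K} {γ : K} (h : ∀ n, p ≤ trunc γ (s n)) : p ≤ trunc γ (lim hτ hM m0 s) := by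
  intro x hx
  obtain ⟨n, hn⟩ := mem_lim hx.1
  exact h n ⟨hn, hx.2⟩

theorem le_trunc_join {hτ : τ.IsRegular} {a b p : GC τ W K} {γ : K} (h1 : p ≤ trunc γ a)
    (h2 : p ≤ trunc γ b) : p ≤ trunc γ (join hτ a b) := by
  intro x hx
  rcases mem_join hx.1 with h | h
  · exact h1 ⟨h, hx.2⟩
  · exact h2 ⟨h, hx.2⟩

/-- the domain of `p` lies below `γ` -/
def Supp (γ : K) (p : GC τ W K) : Prop := ∀ x ∈ p.g, x.1 < γ

theorem compat_of_supp {γ : K} {p q : GC τ W K} (hp : Supp γ p) (h : p ≤ trunc γ q) :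
    Cp p q := by
  intro β ξ y z hy hz
  exact p.fn _ _ _ _ hy (h ⟨hz, show β < γ from hp (β, ξ, y) hy⟩)

theorem exists_supp (hK : Inac K) (hτK : τ < #K) (p : GC τ W K) : ∃ γ, Supp γ p := by
  obtain ⟨γ, hγ⟩ := hK.reg p.g (p.sz.trans hτK) (fun x => x.1.1)
  exact ⟨γ, fun x hx => hγ ⟨x, hx⟩⟩

section

variable (F : Filter K)

/-- `p` is stronger than the constant part of `f` -/
def Bel (p : GC τ W K) (f : K → GC τ W K) : Prop := ∀ γ, ∀ᶠ β in F, p ≤ trunc γ (f β)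

/-- `f β ≤ g β` for almost all `β` -/
def LEF (f g : K → GC τ W K) : Prop := ∀ᶠ β in F, f β ≤ g β

/-- the membership of each triple in `f β` is decided -/
def Hd (f : K → GC τ W K) : Prop :=
  ∀ x : K × W × K, (∀ᶠ β in F, x ∈ (f β).g) ∨ (∀ᶠ β in F, x ∉ (f β).g)

end

variable {F : Filter K}

theorem Bel.mono {p q : GC τ W K} {f : K → GC τ W K} (h : Bel F p f) (hq : q ≤ p) : Bel F q f :=
  fun γ => (h γ).mono fun _ hβ => hq.trans hβ

theorem LEF.refl (f : K → GC τ W K) : LEF F f f := Eventually.of_forall fun _ => le_rfl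

theorem LEF.trans {f g h : K → GC τ W K} (h1 : LEF F f g) (h2 : LEF F g h) : LEF F f h := by
  filter_upwards [h1, h2] with β a b using a.trans b

/-- `p` and `f β` are compatible for almost all `β` -/
theorem Bel.compat (hK : Inac K) (hτK : τ < #K) {p : GC τ W K} {f : K → GC τ W K}
    (h : Bel F p f) : ∀ᶠ β in F, Cp p (f β) := by
  obtain ⟨γ, hγ⟩ := exists_supp hK hτK p
  filter_upwards [h γ] with β hβ using compat_of_supp hγ hβ

theorem card_below (hK : Inac K) (hW : #W < #K) (γ : K) :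
    #{x : K × W × K // x.1 < γ ∧ x.2.2 < γ} < #K := by
  have h1 : #{x : K × W × K // x.1 < γ ∧ x.2.2 < γ} ≤ #(Iio γ × W × Iio γ) := by
    refine mk_le_of_injective (f := fun x => (⟨x.1.1, x.2.1⟩, x.1.2.1, ⟨x.1.2.2, x.2.2⟩)) ?_
    rintro ⟨⟨a, b, c⟩, h⟩ ⟨⟨a', b', c'⟩, h'⟩ heq
    have h1 : a = a' := congrArg (fun z : Iio γ × W × Iio γ => z.1.1) heq
    have h2 : b = b' := congrArg (fun z : Iio γ × W × Iio γ => z.2.1) heq
    have h3 : c = c' := congrArg (fun z : Iio γ × W × Iio γ => z.2.2.1) heq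
    subst h1 h2 h3
    rfl
  refine h1.trans_lt ?_
  simp only [mk_prod, lift_id]
  exact mul_lt_of_lt hK.aleph0_lt.le (hK.small γ) (mul_lt_of_lt hK.aleph0_lt.le hW (hK.small γ))

/-- The constant part of a function. -/
theorem exists_head (hK : Inac K) (hW : #W < #K) (hτK : τ < #K) (hF : Compl F)
    {f : K → GC τ W K} (hf : Hd F f) :
    ∃ p : GC τ W K, Bel F p f ∧ (∀ q : GC τ W K, (∀ᶠ β in F, f β ≤ q) → p ≤ q) ∧
      ∀ᶠ β in F, f β ≤ p := by
  have := hF.ne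
  have hcnt : #{x : K × W × K | ∀ᶠ β in F, x ∈ (f β).g} < τ := by
    by_contra hcon
    push Not at hcon
    obtain ⟨A, hA, hA2⟩ := le_mk_iff_exists_subset.1 hcon
    have h2 : ∀ᶠ β in F, ∀ x : A, x.1 ∈ (f β).g :=
      hF.inter A (by rw [hA2]; exact hτK) (fun x β => x.1 ∈ (f β).g) (fun x => hA x.2)
    obtain ⟨β, hβ⟩ := h2.exists
    have h3 : A ⊆ (f β).g := fun x hx => hβ ⟨x, hx⟩
    have h4 := (mk_le_mk_of_subset h3).trans_lt (f β).sz
    rw [hA2] at h4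
    exact lt_irrefl _ h4
  refine ⟨⟨{x | ∀ᶠ β in F, x ∈ (f β).g}, hcnt, fun β ξ y z hy hz => ?_, fun β ξ y hy => ?_⟩,
    fun γ => ?_, fun q hq x hx => ?_, ?_⟩
  · obtain ⟨δ, h1, h2⟩ := ((show ∀ᶠ δ in F, (β, ξ, y) ∈ (f δ).g from hy).and
      (show ∀ᶠ δ in F, (β, ξ, z) ∈ (f δ).g from hz)).exists
    exact (f δ).fn _ _ _ _ h1 h2
  · obtain ⟨δ, h1⟩ := (show ∀ᶠ δ in F, (β, ξ, y) ∈ (f δ).g from hy).exists
    exact (f δ).val _ _ _ h1
  · have h1 := hF.inter {x : K × W × K // x.1 < γ ∧ x.2.2 < γ} (card_below hK hW γ)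
      (fun x β => x.1 ∈ (f β).g → ∀ᶠ δ in F, x.1 ∈ (f δ).g) (fun x => by
        rcases hf x.1 with h | h
        · exact Eventually.of_forall fun _ _ => h
        · exact h.mono fun β hβ h' => absurd h' hβ)
    filter_upwards [h1] with β hβ x hx
    exact hβ ⟨x, hx.2, ((f β).val _ _ _ hx.1).trans hx.2⟩ hx.1
  · exact hq.mono fun β hβ => hβ hx
  · have h2 : ∀ᶠ β in F, ∀ x : {x : K × W × K | ∀ᶠ β in F, x ∈ (f β).g}, x.1 ∈ (f β).g :=
      hF.inter _ (hcnt.trans hτK) (fun x β => x.1 ∈ (f β).g) (fun x => x.2)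
    filter_upwards [h2] with β hβ x hx using hβ ⟨x, hx⟩

/-- the chain condition -/
theorem cc (hK : Inac K) (hP : PairPart K) (hW : #W < #K) (hτ : τ.IsRegular) (hτK : τ < #K)
    (ι : Type) (f : ι → GC τ W K) (hι : #K ≤ #ι) :
    ∃ i j, i ≠ j ∧ ∃ r, r ≤ f i ∧ r ≤ f j := by
  obtain ⟨e⟩ := hι
  have hI : #(K × W × K) ≤ #K := by
    simp only [mk_prod, lift_id]
    exact mul_le_of_le hK.aleph0_lt.le le_rfl (mul_le_of_le hK.aleph0_lt.le hW.le le_rfl)
  obtain ⟨F, hF, hS⟩ := exists_filter hK hP hI (fun x => {β | x ∈ (f (e β)).g})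
  have := hF.ne
  obtain ⟨p, hp, -, hp2⟩ := exists_head hK hW hτK hF (f := fun β => f (e β)) (fun x => hS x)
  obtain ⟨β, hβ⟩ := hp2.exists
  obtain ⟨γ, hγ⟩ := exists_supp hK hτK (f (e β))
  obtain ⟨δ, h1, h2⟩ := ((hp γ).and (hF.tail β)).exists
  have hcp : Cp (f (e β)) (f (e δ)) := compat_of_supp hγ (hβ.trans h1)
  exact ⟨e β, e δ, fun h => absurd (e.injective h) h2.ne, join hτ _ _, join_le_left _ _ _,
    join_le_right _ hcp⟩

end Pool.Agent.Y582.LG.Wc
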