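import Pool.Agent.Y582.LG.WTerms

set_option autoImplicit false

/-!
# The set `X` and its connectivity: paths of length four
-/

namespace Pool.Agent.Y582.LG.Wc

open Cardinal Set Filter Pool.Agent.Y582.LG Pool.Agent.W931.KH
open Pool.Agent.H833R3.Levy (Inac PairPart Compl exists_filter)

variable {τ : Cardinal.{0}} {K W N M : Type} [LinearOrder K]
variable {F : Filter K} {C : GC τ W K → K → K → N → Prop} {T : Set (K → GC τ W K)}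
  {p₀ : GC τ W K}

/-- There is an infinite transitive path. -/
theorem exists_path' (hK : Inac K) (hW : #W < #K) (hτK : τ < #K) (hF : Compl F)
    {hτ : τ.IsRegular} {hM : #M < τ} {m0 : M} (hT : Closed F C T hτ hM m0 p₀) (hN : #N ≤ #M)
    (hM0 : ℵ₀ ≤ #M) :
    ∃ n, ∃ p ≤ p₀, ∃ f : ℕ → K → GC τ W K, (∀ i, f i ∈ T) ∧ (∀ i, Bel F p (f i)) ∧
      ∀ i j, i < j → Psi F C T n p (f i) (f j) := by
  let s0 : Nd F T p₀ := ⟨(p₀, fun _ => p₀), le_rfl, hT.const p₀, fun γ =>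
    Eventually.of_forall fun _ => le_trunc γ p₀⟩
  -- a colour for which the pairs are dense
  obtain ⟨n, x1, hx1⟩ : ∃ (n : N) (x1 : Nd F T p₀), ∀ x ≤ x1, ∃ p' ≤ x.1.1, ∃ f' ∈ T,
      LEF F f' x.1.2 ∧ ∃ h' ∈ T, LEF F h' x.1.2 ∧ Bel F p' f' ∧ Bel F p' h' ∧
        Psi F C T n p' f' h' := by
    by_contra hcon
    push Not at hcon
    obtain ⟨x, _, hx⟩ := meet_all (Nd.closed hK hτK hF hT) (Order.lt_succ_iff.2 hN)
      (fun n => {x : Nd F T p₀ | ∀ p' ≤ x.1.1, ∀ f' ∈ T,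
        LEF F f' x.1.2 → ∀ h' ∈ T, LEF F h' x.1.2 → Bel F p' f' → Bel F p' h' →
          ¬ Psi F C T n p' f' h'})
      (by
        intro n x hx x' hx' p' hp' f' hf' hff h' hh' hhh
        exact hx p' (hp'.trans hx'.1) f' hf' (hff.trans hx'.2) h' hh' (hhh.trans hx'.2)) s0
      (by
        intro n x _
        obtain ⟨y, hy, hy'⟩ := hcon n x
        exact ⟨y, hy, hy'⟩)
    obtain ⟨n, p', hp', f', hf', hff, h', hh', hhf, hb1, hb2, hpsi⟩ :=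
      exists_psi hK hW hτK hF hT hN x.2.1 x.2.2.1 x.2.2.1 x.2.2.2 x.2.2.2
    exact hx n p' hp' f' hf' hff h' hh' hhf hb1 hb2 hpsi
  let St : Type := {y : GC τ W K × (K → GC τ W K) × (K → GC τ W K) //
    y.1 ≤ x1.1.1 ∧ y.2.1 ∈ T ∧ y.2.2 ∈ T ∧ LEF F y.2.2 x1.1.2 ∧ Bel F y.1 y.2.1 ∧
      Bel F y.1 y.2.2 ∧ Psi F C T n y.1 y.2.1 y.2.2}
  have step : ∀ x : Nd F T p₀, x ≤ x1 → ∃ y : St, y.1.1 ≤ x.1.1 ∧ LEF F y.1.2.1 x.1.2 ∧
      LEF F y.1.2.2 x.1.2 := by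
    intro x hx
    obtain ⟨p', hp', f', hf', hff, h', hh', hhf, hb1, hb2, hpsi⟩ := hx1 x hx
    exact ⟨⟨(p', f', h'), hp'.trans hx.1, hf', hh', hhf.trans hx.2, hb1, hb2, hpsi⟩, hp', hff,
      hhf⟩
  obtain ⟨y0, -, -, -⟩ := step x1 le_rfl
  have step' : ∀ y : St, ∃ y' : St, y'.1.1 ≤ y.1.1 ∧ LEF F y'.1.2.1 y.1.2.2 ∧
      LEF F y'.1.2.2 y.1.2.2 := by
    intro y
    obtain ⟨y', h1, h2, h3⟩ := step ⟨(y.1.1, y.1.2.2), y.2.1.trans x1.2.1, y.2.2.2.1,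
      y.2.2.2.2.2.2.1⟩ ⟨y.2.1, y.2.2.2.2.1⟩
    exact ⟨y', h1, h2, h3⟩
  choose nx hn1 hn2 hn3 using step'
  let sq : ℕ → St := fun n => Nat.rec y0 (fun _ y => nx y) n
  have hsq : ∀ n, sq (n + 1) = nx (sq n) := fun n => rfl
  have e1 : ∀ n, (sq (n + 1)).1.1 ≤ (sq n).1.1 := fun n => by rw [hsq]; exact hn1 _
  have e2 : ∀ n, LEF F (sq (n + 1)).1.2.1 (sq n).1.2.2 := fun n => by rw [hsq]; exact hn2 _
  have e3 : ∀ n, LEF F (sq (n + 1)).1.2.2 (sq n).1.2.2 := fun n => by rw [hsq]; exact hn3 _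
  have e4 : ∀ k m, k ≤ m → LEF F (sq m).1.2.2 (sq k).1.2.2 := by
    intro k m hkm
    induction m, hkm using Nat.le_induction with
    | base => exact LEF.refl _
    | succ m _ ih => exact (e3 m).trans ih
  obtain ⟨pp, hpp⟩ := lim_cond hτ hM (J := ℕ) (by rw [mk_nat]; exact Order.lt_succ_iff.2 hM0)
    (fun i => (sq i).1.1) (fun j j' h => antitone_nat_of_succ_le
      (f := fun i => (sq i).1.1) e1 h)
  refine ⟨n, pp, (hpp 0).trans ((sq 0).2.1.trans x1.2.1), fun i => (sq i).1.2.1,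
    fun i => (sq i).2.2.1, fun i => (sq i).2.2.2.2.2.1.mono (hpp i), fun i j hij => ?_⟩
  obtain ⟨j, rfl⟩ : ∃ j', j = j' + 1 := ⟨j - 1, by omega⟩
  exact (sq i).2.2.2.2.2.2.2.mono (hpp i) (LEF.refl _) ((e2 j).trans (e4 i j (by omega)))

section

variable (F C T) (f : ℕ → K → GC τ W K) (n : N)

/-- `t` puts `α` into `X`, at level `i` -/
def XX (i : ℕ) (α : K) (t : GC τ W K) : Prop :=
  ∃ g ∈ T, LEF F g (f i) ∧ Bel F t g ∧ Dec F C g α n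

/-- `t` puts `α` into `X` -/
def InX (α : K) (t : GC τ W K) : Prop := ∃ i, XX F C T f n i α t

end

variable {f : ℕ → K → GC τ W K} {n : N}

theorem XX.mono {i : ℕ} {α : K} {t t' : GC τ W K} (h : XX F C T f n i α t) (ht : t' ≤ t) :
    XX F C T f n i α t' := by
  obtain ⟨g, h1, h2, h3, h4⟩ := h
  exact ⟨g, h1, h2, h3.mono ht, h4⟩

theorem InX.mono {α : K} {t t' : GC τ W K} (h : InX F C T f n α t) (ht : t' ≤ t) :
    InX F C T f n α t' := ⟨h.choose, h.choose_spec.mono ht⟩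

section

variable (hC : ∀ p α β n, C p α β n → ∀ q ≤ p, C q α β n)
variable (hF : Compl F) {pp : GC τ W K} (hf : ∀ i, f i ∈ T) (hb : ∀ i, Bel F pp (f i))
  (hpsi : ∀ i j, i < j → Psi F C T n pp (f i) (f j))

include hC hF hpsi

/-- the next vertex of a path -/
theorem step_up {t : GC τ W K} (ht : t ≤ pp) {i j : ℕ} (hij : i < j) {α : K}
    (hα : XX F C T f n i α t)
    {h : K → GC τ W K} (hh : h ∈ T) (hle : LEF F h (f j)) (hbh : Bel F t h) (γ : K) :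
    ∃ t' ≤ t, ∃ β, γ < β ∧ α < β ∧ C t' α β n ∧ ∃ h' ∈ T, LEF F h' h ∧ Bel F t' h' ∧
      Dec F C h' β n := by
  obtain ⟨g, hg, hgf, htg, hdec⟩ := hα
  obtain ⟨β, ⟨h1, h2, h3⟩, q, hq, hqg, g', hg', h4, h5, h6⟩ :=
    hpsi i j hij t ht g hg hgf h hh hle htg hbh t le_rfl
      (fun β => C (g β) α β n ∧ γ < β ∧ α < β) (hdec.and ((hF.tail γ).and (hF.tail α)))
  exact ⟨q, hq, β, h2, h3, hC _ _ _ _ h1 _ hqg, g', hg', h4, h5, h6⟩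

include hf hb

/-- any two vertices are joined by a path of length four -/
theorem conn4 {t : GC τ W K} (ht : t ≤ pp) {α α' : K}
    (hα : InX F C T f n α t) (hα' : InX F C T f n α' t) (γ : K) :
    ∃ t' ≤ t, ∃ β β' δ, (γ < β ∧ γ < β' ∧ γ < δ) ∧
      (InX F C T f n β t' ∧ InX F C T f n β' t' ∧ InX F C T f n δ t') ∧
      (α < β ∧ C t' α β n) ∧ (β < δ ∧ C t' β δ n) ∧ (β' < δ ∧ C t' β' δ n) ∧
      (α' < β' ∧ C t' α' β' n) := by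
  obtain ⟨i, hα⟩ := hα
  obtain ⟨j, hα'⟩ := hα'
  obtain ⟨m, him, hjm⟩ : ∃ m, i < m ∧ j < m := ⟨max i j + 1, by omega, by omega⟩
  obtain ⟨t1, ht1, β, hβ, hβ0, e1, g1, hg1, hg1f, hb1, hd1⟩ := step_up hC hF hpsi ht him hα
    (hf m) (LEF.refl _) ((hb m).mono ht) γ
  obtain ⟨t2, ht2, β', hβ', hβ0', e2, g2, hg2, hg2f, hb2, hd2⟩ := step_up hC hF hpsi
    (ht1.trans ht) hjm (hα'.mono ht1) hg1 hg1f hb1 γ
  have hg2f' : LEF F g2 (f m) := hg2f.trans hg1f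
  have hd1' : Dec F C g2 β n := hd1.mono hC hg2f
  have ht2p : t2 ≤ pp := ht2.trans (ht1.trans ht)
  obtain ⟨δ, ⟨k1, k2, k3, k4, k5⟩, t3, ht3, ht3g, g3, hg3, hg3f, hb3, hd3⟩ :=
    hpsi m (m + 1) (Nat.lt_succ_self m) t2 ht2p g2 hg2 hg2f' (f (m + 1)) (hf (m + 1))
      (LEF.refl _) hb2 ((hb (m + 1)).mono ht2p) t2 le_rfl
      (fun δ => C (g2 δ) β δ n ∧ C (g2 δ) β' δ n ∧ γ < δ ∧ β < δ ∧ β' < δ)
      (hd1'.and (hd2.and ((hF.tail γ).and ((hF.tail β).and (hF.tail β')))))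
  have x2 : InX F C T f n β t3 := ⟨m, g2, hg2, hg2f', hb2.mono ht3, hd1'⟩
  have x2' : InX F C T f n β' t3 := ⟨m, g2, hg2, hg2f', hb2.mono ht3, hd2⟩
  have x3 : InX F C T f n δ t3 := ⟨m + 1, g3, hg3, hg3f, hb3, hd3⟩
  exact ⟨t3, ht3.trans (ht2.trans ht1), β, β', δ, ⟨hβ, hβ', k3⟩, ⟨x2, x2', x3⟩,
    ⟨hβ0, hC _ _ _ _ e1 _ (ht3.trans ht2)⟩, ⟨k4, hC _ _ _ _ k1 _ ht3g⟩,
    ⟨k5, hC _ _ _ _ k2 _ ht3g⟩, ⟨hβ0', hC _ _ _ _ e2 _ ht3⟩⟩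

omit hC in
/-- `X` is unbounded -/
theorem large {t : GC τ W K} (ht : t ≤ pp) (γ : K) :
    ∃ t' ≤ t, ∃ β, γ < β ∧ InX F C T f n β t' := by
  obtain ⟨β, hβ, q, hq, hqf, g, hg, hgf, hqg, hd⟩ := hpsi 0 1 (by norm_num) t ht (f 0) (hf 0)
    (LEF.refl _) (f 1) (hf 1) (LEF.refl _) ((hb 0).mono ht) ((hb 1).mono ht) t le_rfl
    (fun β => γ < β) (hF.tail γ)
  exact ⟨q, hq, β, hβ, 1, g, hg, hgf, hqg, hd⟩

end

end Pool.Agent.Y582.LG.Wc
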