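import Pool.Agent.Y582.LG.WBase

set_option autoImplicit false

/-!
# Promises

`F` is a complete filter on `K` and `T` a family of functions from `K` to the conditions (they
represent conditions of the tail forcing). `C p α β n` means that `p` forces the pair `{α, β}`,
`α < β`, to have colour `n`.
-/

namespace Pool.Agent.Y582.LG.Wc

open Cardinal Set Filter Pool.Agent.Y582.LG Pool.Agent.W931.KH
open Pool.Agent.H833R3.Levy (Inac PairPart Compl exists_filter)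

variable {τ : Cardinal.{0}} {K W N M : Type} [LinearOrder K]

section

variable (F : Filter K) (C : GC τ W K → K → K → N → Prop)

/-- `f` promises that the colour of `{α, β}` is `n` for almost all `β` -/
def Dec (f : K → GC τ W K) (α : K) (n : N) : Prop := ∀ᶠ β in F, C (f β) α β n

variable (T : Set (K → GC τ W K))

/-- below `p`, the set of the `β` which have a promise below `h` of colour `n` meets each large set
given by `f` -/
def Phi (n : N) (p : GC τ W K) (f h : K → GC τ W K) : Prop :=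
  ∀ p' ≤ p, ∀ B : K → Prop, (∀ᶠ β in F, B β) →
    ∃ β, B β ∧ ∃ q ≤ p', q ≤ f β ∧ ∃ g ∈ T, LEF F g h ∧ Bel F q g ∧ Dec F C g β n

/-- `Phi` for all stronger `p`, `f` and `h` -/
def Psi (n : N) (p : GC τ W K) (f h : K → GC τ W K) : Prop :=
  ∀ p' ≤ p, ∀ f' ∈ T, LEF F f' f → ∀ h' ∈ T, LEF F h' h → Bel F p' f' → Bel F p' h' →
    Phi F C T n p' f' h'

/-- closure properties of the family `T` -/
structure Closed (hτ : τ.IsRegular) (hM : #M < τ) (m0 : M) (p₀ : GC τ W K) : Prop where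
  const : ∀ p : GC τ W K, (fun _ => p) ∈ T
  join : ∀ p : GC τ W K, ∀ f ∈ T, (fun β => join hτ p (f β)) ∈ T
  lim : ∀ s : M → K → GC τ W K, (∀ n, s n ∈ T) → (fun β => lim hτ hM m0 fun n => s n β) ∈ T
  dec : ∀ f ∈ T, (∀ᶠ β in F, f β ≤ p₀) → ∀ α, ∃ g ∈ T, LEF F g f ∧ ∃ n, Dec F C g α n
  head : ∀ f ∈ T, Hd F f

end

variable {F : Filter K} {C : GC τ W K → K → K → N → Prop} {T : Set (K → GC τ W K)}
  {p₀ : GC τ W K}

theorem Dec.mono (hC : ∀ p α β n, C p α β n → ∀ q ≤ p, C q α β n) {f g : K → GC τ W K} {α : K}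
    {n : N} (h : Dec F C f α n) (hg : LEF F g f) : Dec F C g α n := by
  filter_upwards [h, hg] with β a b using hC _ _ _ _ a _ b

theorem Psi.mono {n : N} {p p' : GC τ W K} {f f' h h' : K → GC τ W K} (H : Psi F C T n p f h)
    (hp : p' ≤ p) (hf : LEF F f' f) (hh : LEF F h' h) : Psi F C T n p' f' h' :=
  fun q hq f1 hf1 hf1' h1 hh1 hh1' => H q (hq.trans hp) f1 hf1 (hf1'.trans hf) h1 hh1
    (hh1'.trans hh)

/-- Decision of the colours of the pairs `{α, β}`. -/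
theorem exists_dec (hK : Inac K) (hW : #W < #K) (hτK : τ < #K) (hF : Compl F)
    {hτ : τ.IsRegular} {hM : #M < τ} {m0 : M} (hT : Closed F C T hτ hM m0 p₀)
    {q : GC τ W K} (hq : q ≤ p₀) {h : K → GC τ W K} (hh : h ∈ T)
    (hle : ∀ᶠ β in F, h β ≤ q) (α : K) :
    ∃ g ∈ T, LEF F g h ∧ ∃ q' ≤ q, Bel F q' g ∧ ∃ n, Dec F C g α n := by
  obtain ⟨g, hg, hgh, n, hn⟩ := hT.dec h hh (hle.mono fun β hβ => hβ.trans hq) α
  obtain ⟨q', hq', h2, -⟩ := exists_head hK hW hτK hF (hT.head g hg)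
  refine ⟨g, hg, hgh, q', h2 q ?_, hq', n, hn⟩
  filter_upwards [hgh, hle] with β a b using a.trans b

/-- Limits of chains of functions. -/
theorem lim_fun (hK : Inac K) (hτK : τ < #K) (hF : Compl F)
    {hτ : τ.IsRegular} {hM : #M < τ} {m0 : M} (hT : Closed F C T hτ hM m0 p₀)
    {J : Type} [LinearOrder J] [Nonempty J] (hJ : #J < Order.succ #M) (s : J → K → GC τ W K)
    (hs : ∀ j, s j ∈ T) (hle : ∀ j j', j ≤ j' → LEF F (s j') (s j)) :
    ∃ g ∈ T, (∀ j, LEF F g (s j)) ∧ ∀ p : GC τ W K, (∀ j, Bel F p (s j)) → Bel F p g := by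
  obtain ⟨i⟩ : #J ≤ #M := Order.lt_succ_iff.1 hJ
  let e : M → J := Function.invFun i
  have he : Function.Surjective e := Function.invFun_surjective i.injective
  have hJK : #J < #K := (Order.lt_succ_iff.1 hJ).trans_lt (hM.trans hτK)
  have hJJ : #(J × J) < #K := by
    simp only [mk_prod, lift_id]
    exact mul_lt_of_lt hK.aleph0_lt.le hJK hJK
  have hall : ∀ᶠ β in F, ∀ jj : J × J, jj.1 ≤ jj.2 → s jj.2 β ≤ s jj.1 β := by
    refine hF.inter (J × J) hJJ (fun jj β => jj.1 ≤ jj.2 → s jj.2 β ≤ s jj.1 β) fun jj => ?_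
    by_cases hj : jj.1 ≤ jj.2
    · exact (hle _ _ hj).mono fun β hβ _ => hβ
    · exact Eventually.of_forall fun β h => absurd h hj
  refine ⟨fun β => lim hτ hM m0 fun n => s (e n) β, hT.lim (fun n => s (e n)) (fun n => hs _),
    fun j => ?_, fun p hp γ => ?_⟩
  · filter_upwards [hall] with β hβ
    obtain ⟨m, rfl⟩ := he j
    exact lim_le hτ hM m0 (fun a b => (le_total (e a) (e b)).symm.imp
      (fun h => hβ (e b, e a) h) (fun h => hβ (e a, e b) h)) m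
  · filter_upwards [hF.inter J hJK (fun j β => p ≤ trunc γ (s j β)) (fun j => hp j γ)] with β hβ
    exact le_trunc_lim fun n => hβ (e n)

/-- Limits of chains of conditions. -/
theorem lim_cond (hτ : τ.IsRegular) (hM : #M < τ) {J : Type} [LinearOrder J]
    (hJ : #J < Order.succ #M) (s : J → GC τ W K) (hs : ∀ j j', j ≤ j' → s j' ≤ s j) :
    ∃ p, ∀ j, p ≤ s j :=
  have h := (Order.lt_succ_iff.1 hJ).trans_lt hM
  ⟨GC.un hτ h s hs, GC.un_le hτ h s hs⟩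

/-- the states of the construction -/
def St3 (F : Filter K) (T : Set (K → GC τ W K)) : Type :=
  {s : GC τ W K × (K → GC τ W K) × (K → GC τ W K) //
    s.2.1 ∈ T ∧ s.2.2 ∈ T ∧ Bel F s.1 s.2.1 ∧ Bel F s.1 s.2.2}

instance : Preorder (St3 F T) where
  le t s := t.1.1 ≤ s.1.1 ∧ LEF F t.1.2.1 s.1.2.1 ∧ LEF F t.1.2.2 s.1.2.2
  le_refl _ := ⟨le_rfl, LEF.refl _, LEF.refl _⟩
  le_trans _ _ _ h h' := ⟨h.1.trans h'.1, h.2.1.trans h'.2.1, h.2.2.trans h'.2.2⟩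

theorem St3.closed (hK : Inac K) (hτK : τ < #K) (hF : Compl F)
    {hτ : τ.IsRegular} {hM : #M < τ} {m0 : M} (hT : Closed F C T hτ hM m0 p₀) :
    SeqClosed (Order.succ #M) (St3 F T) := by
  intro J _ _ hJ s hs
  obtain ⟨p, hp⟩ := lim_cond hτ hM hJ (fun j => (s j).1.1) (fun j j' h => (hs j j' h).1)
  obtain ⟨f, hf, hf1, hf2⟩ := lim_fun hK hτK hF hT hJ (fun j => (s j).1.2.1)
    (fun j => (s j).2.1) (fun j j' h => (hs j j' h).2.1)
  obtain ⟨g, hg, hg1, hg2⟩ := lim_fun hK hτK hF hT hJ (fun j => (s j).1.2.2)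
    (fun j => (s j).2.2.1) (fun j j' h => (hs j j' h).2.2)
  exact ⟨⟨(p, f, g), hf, hg, hf2 p fun j => (s j).2.2.2.1.mono (hp j),
    hg2 p fun j => (s j).2.2.2.2.mono (hp j)⟩, fun j => ⟨hp j, hf1 j, hg1 j⟩⟩

/-- For some colour, `Psi` holds for some stronger conditions. -/
theorem exists_psi (hK : Inac K) (hW : #W < #K) (hτK : τ < #K) (hF : Compl F)
    {hτ : τ.IsRegular} {hM : #M < τ} {m0 : M} (hT : Closed F C T hτ hM m0 p₀) (hN : #N ≤ #M)
    {p : GC τ W K} (hp : p ≤ p₀) {f h : K → GC τ W K} (hf : f ∈ T) (hh : h ∈ T)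
    (hpf : Bel F p f) (hph : Bel F p h) :
    ∃ n, ∃ p' ≤ p, ∃ f' ∈ T, LEF F f' f ∧ ∃ h' ∈ T, LEF F h' h ∧ Bel F p' f' ∧ Bel F p' h' ∧
      Psi F C T n p' f' h' := by
  have := hF.ne
  by_contra hcon
  push Not at hcon
  have hNK : #N < #K := hN.trans_lt (hM.trans hτK)
  let x0 : St3 F T := ⟨(p, f, h), hf, hh, hpf, hph⟩
  obtain ⟨x, hx, hkill⟩ := meet_all (St3.closed hK hτK hF hT) (Order.lt_succ_iff.2 hN)
    (fun n => {t : St3 F T | ∃ B : K → Prop, (∀ᶠ β in F, B β) ∧ ∀ β, B β →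
        ∀ q ≤ t.1.1, q ≤ t.1.2.1 β → ∀ g ∈ T, LEF F g t.1.2.2 → Bel F q g →
          ¬ Dec F C g β n})
    (by
      rintro n t ⟨B, hB, hB2⟩ t' ht'
      refine ⟨fun β => B β ∧ t'.1.2.1 β ≤ t.1.2.1 β, hB.and ht'.2.1, fun β hβ q hq hqf g hg hgh
        hqg => ?_⟩
      exact hB2 β hβ.1 q (hq.trans ht'.1) (hqf.trans hβ.2) g hg (hgh.trans ht'.2.2) hqg) x0
    (by
      rintro n ⟨⟨p1, f1, h1⟩, a2, a4, a6, a7⟩ ⟨a1, a3, a5⟩
      have h2 := hcon n p1 a1 f1 a2 a3 h1 a4 a5 a6 a7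
      unfold Psi at h2
      push Not at h2
      obtain ⟨p2, b1, f2, b2, b3, h3, b4, b5, b6, b7, b8⟩ := h2
      unfold Phi at b8
      push Not at b8
      obtain ⟨p3, c1, B, hB, c2⟩ := b8
      exact ⟨⟨(p3, f2, h3), b2, b4, b6.mono c1, b7.mono c1⟩, ⟨c1.trans b1, b3, b5⟩, B, hB,
        fun β hβ q hq hqf g hg hgh hqg => c2 β hβ q hq hqf g hg hgh hqg⟩)
  obtain ⟨⟨pw, fw, hw⟩, hfw, hhw, hbf, hbh⟩ := x
  have hx1 : pw ≤ p := hx.1
  choose B hB hB2 using hkill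
  obtain ⟨β, k1, k3⟩ := ((hbf.compat hK hτK).and (hF.inter N hNK B hB)).exists
  let q := join hτ pw (fw β)
  have hq1 : q ≤ pw := join_le_left _ _ _
  have hq2 : q ≤ fw β := join_le_right _ k1
  let h1 : K → GC τ W K := fun δ => join hτ q (hw δ)
  have hh1 : h1 ∈ T := hT.join q hw hhw
  have hq0 : q ≤ p₀ := hq1.trans (hx1.trans hp)
  obtain ⟨g, hg, hgh, q', hq', hqg, n, hn⟩ := exists_dec hK hW hτK hF hT hq0 hh1
    (Eventually.of_forall fun δ => join_le_left _ _ _) β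
  have hle : LEF F h1 hw := by
    filter_upwards [(hbh.mono hq1).compat hK hτK] with δ hδ using join_le_right _ hδ
  exact hB2 n β (k3 n) q' (hq'.trans hq1) (hq'.trans hq2) g hg (hgh.trans hle) hqg hn

/-! ### An infinite path -/

/-- pairs of a condition and a weaker function -/
def Nd (F : Filter K) (T : Set (K → GC τ W K)) (p₀ : GC τ W K) : Type :=
  {s : GC τ W K × (K → GC τ W K) // s.1 ≤ p₀ ∧ s.2 ∈ T ∧ Bel F s.1 s.2}

instance : Preorder (Nd F T p₀) where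
  le t s := t.1.1 ≤ s.1.1 ∧ LEF F t.1.2 s.1.2
  le_refl _ := ⟨le_rfl, LEF.refl _⟩
  le_trans _ _ _ h h' := ⟨h.1.trans h'.1, h.2.trans h'.2⟩

theorem Nd.closed (hK : Inac K) (hτK : τ < #K) (hF : Compl F)
    {hτ : τ.IsRegular} {hM : #M < τ} {m0 : M} (hT : Closed F C T hτ hM m0 p₀) :
    SeqClosed (Order.succ #M) (Nd F T p₀) := by
  intro J _ hJne hJ s hs
  obtain ⟨p, hp⟩ := lim_cond hτ hM hJ (fun j => (s j).1.1) (fun j j' h => (hs j j' h).1)
  obtain ⟨f, hf, hf1, hf2⟩ := lim_fun hK hτK hF hT hJ (fun j => (s j).1.2)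
    (fun j => (s j).2.2.1) (fun j j' h => (hs j j' h).2)
  obtain ⟨j0⟩ := hJne
  exact ⟨⟨(p, f), (hp j0).trans (s j0).2.1, hf, hf2 p fun j => (s j).2.2.2.mono (hp j)⟩,
    fun j => ⟨hp j, hf1 j⟩⟩

/-- one step of a path of colour `n` -/
def RR (C : GC τ W K → K → K → N → Prop) (n : N) (t s : Nd F T p₀) : Prop :=
  t.1.1 ≤ s.1.1 ∧ Psi F C T n t.1.1 s.1.2 t.1.2

/-- There is an infinite path. -/
theorem exists_path (hK : Inac K) (hW : #W < #K) (hτK : τ < #K) (hF : Compl F)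
    {hτ : τ.IsRegular} {hM : #M < τ} {m0 : M} (hT : Closed F C T hτ hM m0 p₀) (hN : #N ≤ #M)
    (hM0 : ℵ₀ ≤ #M) :
    ∃ n, ∃ p ≤ p₀, ∃ f : ℕ → K → GC τ W K, (∀ i, f i ∈ T) ∧ (∀ i, Bel F p (f i)) ∧
      ∀ i, Psi F C T n p (f i) (f (i + 1)) := by
  by_contra hcon
  push Not at hcon
  have hwf : ∀ n, WellFounded (RR (F := F) (T := T) (p₀ := p₀) C n) := by
    intro n
    rw [wellFounded_iff_isEmpty_descending_chain]
    refine ⟨fun ⟨s, hs⟩ => ?_⟩
    obtain ⟨pp, h1⟩ := lim_cond hτ hM (J := ℕ) (by rw [mk_nat]; exact Order.lt_succ_iff.2 hM0)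
      (fun i => (s i).1.1) (fun j j' h => antitone_nat_of_succ_le
        (f := fun i => (s i).1.1) (fun i => (hs i).1) h)
    obtain ⟨i, hi⟩ := hcon n pp ((h1 0).trans (s 0).2.1)
      (fun i => (s i).1.2) (fun i => (s i).2.2.1) (fun i => (s i).2.2.2.mono (h1 i))
    exact hi ((hs i).2.mono (h1 (i + 1)) (LEF.refl _) (LEF.refl _))
  have iwf : ∀ n, IsWellFounded (Nd F T p₀) (RR C n) := fun n => ⟨hwf n⟩
  let rk : N → Nd F T p₀ → Ordinal.{0} := fun n s =>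
    @IsWellFounded.rank _ (RR C n) (iwf n) s
  have hrk : ∀ n t s, RR C n t s → rk n t < rk n s := fun n t s h =>
    @IsWellFounded.rank_lt_of_rel _ _ _ (RR C n) (iwf n) h
  let mu : N → Nd F T p₀ → Ordinal.{0} := fun n s =>
    Ordinal.lsub fun t : {t : Nd F T p₀ // t ≤ s} => rk n t.1
  have hmu1 : ∀ n t s, t ≤ s → rk n t < mu n s := fun n t s h =>
    Ordinal.lt_lsub (fun t : {t : Nd F T p₀ // t ≤ s} => rk n t.1) ⟨t, h⟩
  have hmu2 : ∀ n s a, (∀ t, t ≤ s → rk n t < a) → mu n s ≤ a := fun n s a h =>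
    Ordinal.lsub_le_iff.2 fun t => h t.1 t.2
  have hmu3 : ∀ n t s, t ≤ s → mu n t ≤ mu n s := fun n t s h =>
    hmu2 n t _ fun r hr => hmu1 n r s (hr.trans h)
  have hst : ∀ n s, ∃ t, t ≤ s ∧ ∀ r, r ≤ t → mu n r = mu n t := by
    intro n s
    obtain ⟨t, ht, hmin⟩ := WellFounded.has_min (InvImage.wf (mu n) Ordinal.lt_wf)
      {t | t ≤ s} ⟨s, le_refl s⟩
    refine ⟨t, ht, fun r hr => le_antisymm (hmu3 n r t hr) ?_⟩
    exact not_lt.1 (hmin r (hr.trans ht))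
  let s0 : Nd F T p₀ := ⟨(p₀, fun _ => p₀), le_rfl, hT.const p₀, fun γ =>
    Eventually.of_forall fun _ => le_trunc γ p₀⟩
  obtain ⟨x, hx, e2⟩ := meet_all (Nd.closed hK hτK hF hT) (Order.lt_succ_iff.2 hN)
    (fun n => {t : Nd F T p₀ | ∀ r, r ≤ t → mu n r = mu n t})
    (by
      intro n t ht t' ht' r hr
      rw [ht r (hr.trans ht'), ht t' ht']) s0
    (by
      intro n q _
      obtain ⟨t, ht, h⟩ := hst n q
      exact ⟨t, ht, h⟩)
  obtain ⟨n, p', hp', f', hf', hff, h', hh', hhf, hb1, hb2, hpsi⟩ :=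
    exists_psi hK hW hτK hF hT hN x.2.1 x.2.2.1 x.2.2.1 x.2.2.2 x.2.2.2
  have hp0 : p' ≤ p₀ := hp'.trans x.2.1
  let a : Nd F T p₀ := ⟨(p', f'), hp0, hf', hb1⟩
  let b : Nd F T p₀ := ⟨(p', h'), hp0, hh', hb2⟩
  have ha : a ≤ x := ⟨hp', hff⟩
  have hb : b ≤ x := ⟨hp', hhf⟩
  have k1 : mu n b ≤ rk n a := hmu2 n b _ fun t ht =>
    hrk n t a ⟨ht.1, hpsi.mono ht.1 (LEF.refl _) ht.2⟩
  have k2 : rk n a < mu n a := hmu1 n a a (le_refl a)
  rw [e2 n a ha] at k2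
  rw [e2 n b hb] at k1
  exact absurd k2 (not_lt.2 k1)

end Pool.Agent.Y582.LG.Wc
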