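import Pool.Agent.Y582.LG.WCore

set_option autoImplicit false

/-!
# The family of the functions used for promises
-/

namespace Pool.Agent.Y582.LG.Wc

open Cardinal Set Filter Pool.Agent.Y582.LG Pool.Agent.W931.KH
open Pool.Agent.H833R3.Levy (Inac PairPart Compl exists_filter)

variable {τ : Cardinal.{0}} {K W N M : Type} [LinearOrder K]

theorem pow_le (hK : Inac K) (hM : #M < #K) (hM0 : ℵ₀ ≤ #M) : #K ^ #M ≤ #K := by
  have h1 : #K ^ #M = #(M → K) := by simp
  rw [h1]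
  have h2 : (Set.univ : Set (M → K)) ⊆ ⋃ γ : K, {f | ∀ n, f n < γ} := by
    intro f _
    obtain ⟨γ, hγ⟩ := hK.reg M hM f
    exact Set.mem_iUnion.2 ⟨γ, hγ⟩
  have h3 : #(M → K) ≤ Cardinal.sum fun γ : K => #{f : M → K | ∀ n, f n < γ} := by
    rw [← mk_univ]
    exact (mk_le_mk_of_subset h2).trans mk_iUnion_le_sum_mk
  refine h3.trans ((Cardinal.sum_le_sum _ (fun _ => #K) fun γ => ?_).trans ?_)
  · have h4 : #{f : M → K | ∀ n, f n < γ} ≤ #(M → Iio γ) := by
      refine mk_le_of_injective (f := fun f n => ⟨f.1 n, f.2 n⟩) ?_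
      rintro ⟨f, hf⟩ ⟨g, hg⟩ h
      refine Subtype.ext (funext fun n => ?_)
      exact congrArg (fun z : M → Iio γ => (z n).1) h
    refine h4.trans ?_
    have h5 : #(M → Iio γ) ≤ #(M × Iio γ → Prop) := by
      refine mk_le_of_injective (f := fun f x => f x.1 = x.2) ?_
      intro f g h
      funext n
      have := congrFun h (n, g n)
      simpa using this
    refine h5.trans ?_
    have h6 : #(M × Iio γ → Prop) = 2 ^ (#M * #(Iio γ)) := by simp
    rw [h6]
    exact (hK.pow _ (mul_lt_of_lt hK.aleph0_lt.le hM (hK.small γ))).le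
  · simp only [Cardinal.sum_const, lift_id]
    exact (mul_eq_self hK.aleph0_lt.le).le

theorem mk_cond_le (hK : Inac K) (hW : #W < #K) (hτ : ℵ₀ ≤ τ) (hτK : τ < #K) :
    #(GC τ W K) ≤ #K := by
  choose e he using fun p : GC τ W K => exists_enum p.g p.sz.le
  have hinj : Function.Injective e := by
    intro p q h
    have h1 : p.g = q.g := by rw [he p, he q, h]
    rcases p with ⟨pf, _, _, _⟩
    rcases q with ⟨qf, _, _, _⟩
    simp only at h1
    subst h1
    rfl
  refine (mk_le_of_injective hinj).trans ?_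
  have h1 : #(Option (K × W × K)) ≤ #K := by
    simp only [mk_option, mk_prod, lift_id]
    exact add_le_of_le hK.aleph0_lt.le
      (mul_le_of_le hK.aleph0_lt.le le_rfl (mul_le_of_le hK.aleph0_lt.le hW.le le_rfl))
      (one_lt_aleph0.le.trans hK.aleph0_lt.le)
  have hM : #τ.ord.ToType < #K := by rw [Cardinal.mk_ord_toType]; exact hτK
  have hM0 : ℵ₀ ≤ #τ.ord.ToType := by rw [Cardinal.mk_ord_toType]; exact hτ
  calc #(τ.ord.ToType → Option (K × W × K))
      = #(Option (K × W × K)) ^ #τ.ord.ToType := by simp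
    _ ≤ #K ^ #τ.ord.ToType := power_le_power_right h1
    _ ≤ #K := pow_le hK hM hM0

/-- the shapes of the terms -/
abbrev Sh (τ : Cardinal.{0}) (K W : Type) [LinearOrder K] : Type :=
  (GC τ W K ⊕ GC τ W K) ⊕ (Unit ⊕ K)

/-- the arities of the terms -/
def Ar (M : Type) : Sh τ K W → Type
  | .inl (.inl _) => Empty
  | .inl (.inr _) => Unit
  | .inr (.inl _) => M
  | .inr (.inr _) => Unit

/-- The value of a term. `D α p` is a decision of the colours of `{α, β}` below `p`. -/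
noncomputable def ev (hτ : τ.IsRegular) (hM : #M < τ) (m0 : M)
    (D : K → K → GC τ W K → GC τ W K) : WType (Ar (τ := τ) (K := K) (W := W) M) →
    K → GC τ W K
  | ⟨.inl (.inl p), _⟩ => fun _ => p
  | ⟨.inl (.inr p), a⟩ => fun β => join hτ p (ev hτ hM m0 D (a ()) β)
  | ⟨.inr (.inl _), a⟩ => fun β => lim hτ hM m0 fun n => ev hτ hM m0 D (a n) β
  | ⟨.inr (.inr α), a⟩ => fun β => D α β (ev hτ hM m0 D (a ()) β)

theorem mk_term_le (hK : Inac K) (hW : #W < #K) (hτ : ℵ₀ ≤ τ) (hτK : τ < #K) (hM : #M < τ)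
    (hM0 : ℵ₀ ≤ #M) : #(WType (Ar (τ := τ) (K := K) (W := W) M)) ≤ #K := by
  have hne : #K ≠ 0 := (aleph0_pos.trans hK.aleph0_lt).ne'
  refine WType.cardinalMk_le_of_le ((Cardinal.sum_le_sum _ (fun _ => #K) fun a => ?_).trans ?_)
  · refine le_trans (power_le_power_left hne ?_) (pow_le hK (hM.trans hτK) hM0)
    rcases a with (_ | _) | (_ | _)
    · exact (mk_le_aleph0_iff.2 (inferInstanceAs (Countable Empty))).trans hM0
    · exact (mk_le_aleph0_iff.2 (inferInstanceAs (Countable Unit))).trans hM0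
    · exact le_of_eq rfl
    · exact (mk_le_aleph0_iff.2 (inferInstanceAs (Countable Unit))).trans hM0
  · simp only [Cardinal.sum_const, lift_id]
    refine mul_le_of_le hK.aleph0_lt.le ?_ le_rfl
    have h1 := mk_cond_le (W := W) hK hW hτ hτK
    simp only [mk_sum, lift_id]
    refine add_le_of_le hK.aleph0_lt.le (add_le_of_le hK.aleph0_lt.le h1 h1)
      (add_le_of_le hK.aleph0_lt.le ?_ le_rfl)
    simpa using one_lt_aleph0.le.trans hK.aleph0_lt.le

/-- There are a complete filter `F` and a family `T` with the closure properties. -/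
theorem exists_closed (hK : Inac K) (hP : PairPart K) (hW : #W < #K) (hτK : τ < #K)
    (hτ : τ.IsRegular) (hM : #M < τ) (m0 : M) (hM0 : ℵ₀ ≤ #M) (hN : #N ≤ #M)
    {C : GC τ W K → K → K → N → Prop} {p₀ : GC τ W K}
    (hdec : ∀ p ≤ p₀, ∀ α β, α < β → ∃ q ≤ p, ∃ n, C q α β n) :
    ∃ F : Filter K, ∃ T : Set (K → GC τ W K), Compl F ∧ Closed F C T hτ hM m0 p₀ := by
  classical
  have hD : ∀ (α β : K) (p : GC τ W K), ∃ q ≤ p, p ≤ p₀ → α < β → ∃ n, C q α β n := by
    intro α β p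
    by_cases h : p ≤ p₀ ∧ α < β
    · obtain ⟨q, hq, h1⟩ := hdec p h.1 α β h.2
      exact ⟨q, hq, fun _ _ => h1⟩
    · exact ⟨p, le_rfl, fun h1 h2 => absurd ⟨h1, h2⟩ h⟩
  choose D hD1 hD2 using hD
  have hNK : #N < #K := hN.trans_lt (hM.trans hτK)
  let T : Set (K → GC τ W K) := Set.range (ev hτ hM m0 D)
  have hTc : #T ≤ #K := mk_range_le.trans (mk_term_le hK hW hτ.aleph0_le hτK hM hM0)
  let I := (T × (K × W × K)) ⊕ (T × K × N)
  have hI : #I ≤ #K := by
    simp only [I, mk_sum, mk_prod, lift_id]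
    refine add_le_of_le hK.aleph0_lt.le ?_ ?_
    · exact mul_le_of_le hK.aleph0_lt.le hTc (mul_le_of_le hK.aleph0_lt.le le_rfl
        (mul_le_of_le hK.aleph0_lt.le hW.le le_rfl))
    · exact mul_le_of_le hK.aleph0_lt.le hTc (mul_le_of_le hK.aleph0_lt.le le_rfl hNK.le)
  let S : I → Set K := fun i => match i with
    | .inl (f, x) => {β | x ∈ (f.1 β).g}
    | .inr (f, α, n) => {β | C (f.1 β) α β n}
  obtain ⟨F, hF, hFS⟩ := exists_filter hK hP hI S
  have hne := hF.ne
  refine ⟨F, T, hF, ⟨fun p => ?_, fun p f hf => ?_, fun s hs => ?_, fun f hf hle α => ?_,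
    fun f hf x => ?_⟩⟩
  · exact ⟨⟨.inl (.inl p), fun e => nomatch e⟩, by funext β; simp [ev]⟩
  · obtain ⟨a, rfl⟩ := hf
    exact ⟨⟨.inl (.inr p), fun _ => a⟩, by funext β; simp [ev]⟩
  · choose a ha using hs
    exact ⟨⟨.inr (.inl ()), a⟩, by funext β; simp [ev, ha]⟩
  · obtain ⟨a, rfl⟩ := hf
    refine ⟨fun β => D α β (ev hτ hM m0 D a β), ⟨⟨.inr (.inr α), fun _ => a⟩, by
      funext β; simp [ev]⟩, Eventually.of_forall fun β => hD1 _ _ _, ?_⟩
    have hmem : (fun β => D α β (ev hτ hM m0 D a β)) ∈ T :=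
      ⟨⟨.inr (.inr α), fun _ => a⟩, by funext β; simp [ev]⟩
    by_contra hcon
    have h1 : ∀ n, ∀ᶠ β in F, ¬ C (D α β (ev hτ hM m0 D a β)) α β n := fun n =>
      (hFS (.inr (⟨_, hmem⟩, α, n))).resolve_left fun h => hcon ⟨n, h⟩
    obtain ⟨β, h2, h3, h4⟩ := ((hF.inter N hNK _ h1).and (hle.and (hF.tail α))).exists
    obtain ⟨n, hn⟩ := hD2 α β _ h3 h4
    exact h2 n hn
  · exact hFS (.inl (⟨f, hf⟩, x))

end Pool.Agent.Y582.LG.Wc
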